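import Pool.Agent.P.MP_7b0970_co.Window

/-! The balancing lemma. -/

open MeasureTheory Set
open scoped ENNReal

namespace Pool.Agent.P.MP_7b0970_co

section
variable {V : Type*} [NormedAddCommGroup V] [NormedSpace ℝ V]

/-- Pairs `(x, h)` such that a chord of `K` through `x` inside the window has length `h`. -/
def lift (K : Set V) (v : V) : Set (V × ℝ) :=
  {p | ∃ a : ℝ, -3 ≤ a ∧ a + p.2 ≤ 3 ∧ 0 ≤ p.2 ∧ p.1 + a • v ∈ K ∧ p.1 + (a + p.2) • v ∈ K}

lemma convex_lift {K : Set V} (hK : Convex ℝ K) (v : V) : Convex ℝ (lift K v) := by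
  rintro ⟨x, h⟩ ⟨a, a1, a2, a3, a4, a5⟩ ⟨y, k⟩ ⟨b, b1, b2, b3, b4, b5⟩ s t hs ht hst
  simp only at a2 a3 a4 a5 b2 b3 b4 b5
  refine ⟨s * a + t * b, by nlinarith, ?_, ?_, ?_, ?_⟩
  · simp only [Prod.smul_mk, Prod.mk_add_mk, smul_eq_mul]; nlinarith
  · simp only [Prod.smul_mk, Prod.mk_add_mk, smul_eq_mul]; positivity
  · have := hK a4 b4 hs ht hst
    convert this using 1
    simp only [Prod.smul_mk, Prod.mk_add_mk]
    module
  · have := hK a5 b5 hs ht hst
    convert this using 1
    simp only [Prod.smul_mk, Prod.mk_add_mk, smul_eq_mul]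
    module

lemma isCompact_lift {K : Set V} (hK : IsCompact K) (v : V) : IsCompact (lift K v) := by
  have hc : IsCompact ((K ×ˢ (Icc (-3 : ℝ) 3 ×ˢ Icc (0 : ℝ) 6)) ∩
      {q : V × ℝ × ℝ | q.2.1 + q.2.2 ≤ 3 ∧ q.1 + q.2.2 • v ∈ K}) := by
    refine (hK.prod (isCompact_Icc.prod isCompact_Icc)).inter_right ?_
    refine (isClosed_le (f := fun q : V × ℝ × ℝ => q.2.1 + q.2.2) (g := fun _ => (3 : ℝ))
      (by fun_prop) continuous_const).inter ?_
    exact hK.isClosed.preimage (f := fun q : V × ℝ × ℝ => q.1 + q.2.2 • v) (by fun_prop)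
  have := hc.image (f := fun q : V × ℝ × ℝ => ((q.1 - q.2.1 • v, q.2.2) : V × ℝ)) (by fun_prop)
  convert this using 1
  ext ⟨x, h⟩
  constructor
  · rintro ⟨a, a1, a2, a3, a4, a5⟩
    simp only at a2 a3 a4 a5
    refine ⟨(x + a • v, a, h), ⟨⟨a4, ⟨a1, by linarith⟩, a3, by simp only; linarith⟩, a2, ?_⟩, ?_⟩
    · simpa only [add_smul, add_assoc] using a5
    · simp
  · rintro ⟨⟨y, a, k⟩, ⟨⟨b1, ⟨b2, _⟩, b3, _⟩, b4, b5⟩, e⟩
    simp only [Prod.mk.injEq] at e b1 b2 b3 b4 b5
    obtain ⟨rfl, rfl⟩ := e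
    refine ⟨a, b2, b4, b3, by simpa using b1, ?_⟩
    convert b5 using 1
    module

lemma seg_mem {K : Set V} (hK : Convex ℝ K) {x v : V} {a b c : ℝ} (ha : x + a • v ∈ K)
    (hb : x + b • v ∈ K) (h1 : a ≤ c) (h2 : c ≤ b) : x + c • v ∈ K := by
  have hconv : Convex ℝ {t : ℝ | x + t • v ∈ K} := by
    intro p hp q hq s t hs ht hst
    have := hK hp hq hs ht hst
    show x + (s • p + t • q) • v ∈ K
    convert this using 1
    have e : t = 1 - s := by linarith
    subst e
    simp only [smul_eq_mul]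
    module
  exact hconv.ordConnected.out ha hb ⟨h1, h2⟩

lemma sign_of_lift {K : Set V} (hK : Convex ℝ K) {v x : V} {h : ℝ} (hm : (x, h) ∈ lift K v)
    (h2 : 2 ≤ h) : ∃ e : ℝ, (e = 1 ∨ e = -1) ∧ x + e • v ∈ K := by
  obtain ⟨a, a1, a2, a3, a4, a5⟩ := hm
  simp only at a2 a3 a4 a5
  by_cases ha : a ≤ -1
  · exact ⟨-1, Or.inr rfl, seg_mem hK a4 a5 ha (by linarith)⟩
  · exact ⟨1, Or.inl rfl, seg_mem hK a4 a5 (by linarith) (by linarith)⟩

lemma hyp_subset_lift {K E : Set V} (hK : IsCompact K) (hc : Convex ℝ K) (hEK : E ⊆ K) (v : V) :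
    hyp (len E v) ⊆ lift K v := by
  rintro ⟨x, h⟩ ⟨h0, h1⟩
  simp only at h0 h1
  set S : Set ℝ := Icc (-3 : ℝ) 3 ∩ {t | x + t • v ∈ K} with hS
  have hSc : IsCompact S := isCompact_Icc.inter_right
    (hK.isClosed.preimage (f := fun t : ℝ => x + t • v) (by fun_prop))
  have hle : len E v x ≤ volume S := by
    rw [← lintegral_indicator_one hSc.measurableSet, len, ← lintegral_indicator measurableSet_Icc]
    refine lintegral_mono fun t => ?_
    by_cases ht : t ∈ Icc (-3 : ℝ) 3
    · by_cases he : x + t • v ∈ E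
      · have : t ∈ S := ⟨ht, hEK he⟩
        simp [ht, he, this]
      · simp [ht, he]
    · simp [ht]
  have hne : S.Nonempty := by
    by_contra hn
    rw [not_nonempty_iff_eq_empty.1 hn, measure_empty] at hle
    exact absurd (h1.trans_le hle) (by simp)
  obtain ⟨a, ha, hal⟩ := hSc.exists_isLeast hne
  obtain ⟨b, hb, hbl⟩ := hSc.exists_isGreatest hne
  have hsub : S ⊆ Icc a b := fun t ht => ⟨hal ht, hbl ht⟩
  have h3 : ENNReal.ofReal h < ENNReal.ofReal (b - a) := by
    rw [← Real.volume_Icc]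
    exact h1.trans_le (hle.trans (measure_mono hsub))
  have h4 : h < b - a := (ENNReal.ofReal_lt_ofReal_iff_of_nonneg h0).1 h3
  refine ⟨a, ha.1.1, by simp only; linarith [hb.1.2], h0, ha.2, ?_⟩
  exact seg_mem hc ha.2 hb.2 (by simp only; linarith) (by simp only; linarith)

end

section
variable {V : Type*} [NormedAddCommGroup V] [NormedSpace ℝ V] [FiniteDimensional ℝ V]
  [MeasurableSpace V] [BorelSpace V]

lemma integral_step_fst (μ : Measure V) [μ.IsAddHaarMeasure] {K E : Set V} (hK : IsCompact K)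
    (hE : MeasurableSet E) (hEK : E ⊆ K) (v : V) :
    ∫ p in hyp (len E v), p.1 ∂(μ.prod volume) = (6 : ℝ) • ∫ x in E, x ∂μ := by
  have hfin : μ E ≠ ∞ := ne_top_of_le_ne_top hK.measure_lt_top.ne (measure_mono hEK)
  have : IsFiniteMeasure (μ.restrict E) := isFiniteMeasure_restrict.2 hfin
  have hint : IntegrableOn (fun x : V => x) E μ :=
    (continuous_id.continuousOn.integrableOn_compact hK).mono_set hEK
  have hm : ((μ.prod volume).restrict (hyp (len E v))).map Prod.fst
      = ((μ.restrict E).prod (volume.restrict (Icc (-3 : ℝ) 3))).map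
        (fun p : V × ℝ => p.1 - p.2 • v) := by
    refine Measure.ext_of_lintegral _ fun F hF => ?_
    rw [lintegral_map hF measurable_fst, lintegral_map hF (by fun_prop),
      lintegral_hyp_fst μ (measurable_len hE v) (len_ne_top E v) F hF, lintegral_mul_len μ hE v F hF]
  have e1 : ∫ p in hyp (len E v), p.1 ∂(μ.prod volume)
      = ∫ x, x ∂(((μ.prod volume).restrict (hyp (len E v))).map Prod.fst) := by
    rw [integral_map measurable_fst.aemeasurable (by fun_prop)]
  rw [e1, hm, integral_map (by fun_prop) (by fun_prop)]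
  have i2 : Integrable (fun t : ℝ => t • v) (volume.restrict (Icc (-3 : ℝ) 3)) :=
    Continuous.integrableOn_Icc (by fun_prop)
  rw [integral_sub (hint.comp_fst _) (i2.comp_snd _), integral_fun_fst (fun x : V => x),
    integral_fun_snd (fun t : ℝ => t • v), integral_smul_const,
    integral_Icc_eq_integral_Ioc, ← intervalIntegral.integral_of_le (by norm_num), integral_id]
  simp only [Measure.real, Measure.restrict_apply MeasurableSet.univ, univ_inter, vol_window]
  norm_num

lemma integral_step_snd (μ : Measure V) [μ.IsAddHaarMeasure] {E : Set V}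
    (hE : MeasurableSet E) (v : V) :
    ∫ p in hyp (len E v), p.2 ∂(μ.prod volume) = (tot μ E v / 2).toReal := by
  rw [integral_eq_lintegral_of_nonneg_ae _ (by fun_prop),
    lintegral_hyp_snd μ (measurable_len hE v) (len_ne_top E v), ← lintegral_len_sq μ hE v]
  · simp only [div_eq_mul_inv]
    rw [lintegral_mul_const' _ _ (by simp)]
  · exact (ae_restrict_iff' (measurableSet_hyp (measurable_len hE v))).2
      (Filter.Eventually.of_forall fun p hp => hp.1)

omit [FiniteDimensional ℝ V] [BorelSpace V] in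
lemma tot_le (μ : Measure V) (E : Set V) (v : V) : tot μ E v ≤ 36 * μ E := by
  calc tot μ E v ≤ ∫⁻ _ in Icc (-3 : ℝ) 3, ∫⁻ _ in Icc (-3 : ℝ) 3, μ E :=
        lintegral_mono fun t => lintegral_mono fun s => measure_mono fun x hx => hx.1
    _ = 36 * μ E := by
        simp only [lintegral_const, Measure.restrict_apply MeasurableSet.univ, univ_inter,
          vol_window]
        ring

lemma average_step (μ : Measure V) [μ.IsAddHaarMeasure] {K E : Set V} (hK : IsCompact K)
    (hc : Convex ℝ K) (hE : MeasurableSet E) (hEK : E ⊆ K) (h0 : μ E ≠ 0) (v : V)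
    (hv : 24 * μ E ≤ tot μ E v) :
    ∃ h : ℝ, 2 ≤ h ∧ ⨍ p in hyp (len E v), p ∂(μ.prod volume) = (⨍ x in E, x ∂μ, h) := by
  have hfin : μ E ≠ ∞ := ne_top_of_le_ne_top hK.measure_lt_top.ne (measure_mono hEK)
  have hint : IntegrableOn (fun p : V × ℝ => p) (hyp (len E v)) (μ.prod volume) :=
    (continuous_id.continuousOn.integrableOn_compact (isCompact_lift hK v)).mono_set
      (hyp_subset_lift hK hc hEK v)
  have hpos : 0 < (μ E).toReal := ENNReal.toReal_pos h0 hfin
  have hT : tot μ E v ≠ ∞ :=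
    ne_top_of_le_ne_top (ENNReal.mul_ne_top (by norm_num) hfin) (tot_le μ E v)
  refine ⟨(6 * (μ E).toReal)⁻¹ * (tot μ E v / 2).toReal, ?_, ?_⟩
  · have h1 := ENNReal.toReal_mono hT hv
    rw [ENNReal.toReal_mul] at h1
    rw [ENNReal.toReal_div, ← div_eq_inv_mul, le_div_iff₀ (by positivity)]
    norm_num at h1 ⊢
    linarith
  · rw [setAverage_eq, setAverage_eq, Measure.real, measure_step μ hE, ENNReal.toReal_mul]
    refine Prod.ext ?_ ?_
    · rw [Prod.smul_fst, fst_integral hint, integral_step_fst μ hK hE hEK, smul_smul,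
        Measure.real]
      congr 1
      simp only [ENNReal.toReal_ofNat]
      field_simp
    · rw [Prod.smul_snd, snd_integral hint, integral_step_snd μ hE]
      simp

end

theorem balance (n : ℕ) : ∀ (V : Type) [NormedAddCommGroup V] [NormedSpace ℝ V]
    [FiniteDimensional ℝ V] [MeasurableSpace V] [BorelSpace V] (μ : Measure V)
    [μ.IsAddHaarMeasure] (K E : Set V), IsCompact K → Convex ℝ K → MeasurableSet E → E ⊆ K →
    μ E ≠ 0 → ∀ v : Fin n → V, (∀ i, 24 * μ E ≤ tot μ E (v i)) →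
    ∃ ε : Fin n → ℝ, (∀ i, ε i = 1 ∨ ε i = -1) ∧ (⨍ x in E, x ∂μ) + ∑ i, ε i • v i ∈ K := by
  induction n with
  | zero =>
    intro V _ _ _ _ _ μ _ K E hK hc hE hEK h0 v _
    refine ⟨fun _ => 1, fun i => Or.inl rfl, ?_⟩
    simp only [Finset.univ_eq_empty, Finset.sum_empty, add_zero]
    refine hc.set_average_mem hK.isClosed h0
      (ne_top_of_le_ne_top hK.measure_lt_top.ne (measure_mono hEK)) ?_ ?_
    · exact (ae_restrict_iff' hE).2 (Filter.Eventually.of_forall fun x hx => hEK hx)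
    · exact (continuous_id.continuousOn.integrableOn_compact hK).mono_set hEK
  | succ n ih =>
    intro V _ _ _ _ _ μ _ K E hK hc hE hEK h0 v hv
    obtain ⟨h, h2, hav⟩ := average_step μ hK hc hE hEK h0 (v 0) (hv 0)
    obtain ⟨ε, hε, hm⟩ := ih (V × ℝ) (μ.prod volume) (lift K (v 0)) (hyp (len E (v 0)))
      (isCompact_lift hK _) (convex_lift hc _) (measurableSet_hyp (measurable_len hE _))
      (hyp_subset_lift hK hc hEK _)
      (by rw [measure_step μ hE]; exact mul_ne_zero (by norm_num) h0)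
      (fun i => (v i.succ, 0)) (fun i => by
        rw [measure_step μ hE, mul_left_comm]
        exact le_trans (by gcongr; exact hv _) (tot_step μ hE _ _))
    have e : (⨍ p in hyp (len E (v 0)), p ∂(μ.prod volume))
        + ∑ i : Fin n, ε i • ((v i.succ, 0) : V × ℝ)
        = ((⨍ x in E, x ∂μ) + ∑ i : Fin n, ε i • v i.succ, h) := by
      rw [hav]
      refine Prod.ext ?_ ?_
      · simp [Prod.fst_sum]
      · simp [Prod.snd_sum]
    rw [e] at hm
    obtain ⟨s, hs, hx⟩ := sign_of_lift hc hm h2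
    refine ⟨Fin.cons s ε, fun i => ?_, ?_⟩
    · refine Fin.cases ?_ (fun j => ?_) i
      · simpa using hs
      · simpa using hε j
    · rw [Fin.sum_univ_succ]
      simp only [Fin.cons_zero, Fin.cons_succ]
      convert hx using 1
      abel

end Pool.Agent.P.MP_7b0970_co
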