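import Mathlib

/-! A bound, affine in the variance, for the mean absolute value of a shifted Gaussian. -/

open MeasureTheory Set ProbabilityTheory Real
open scoped ENNReal NNReal

namespace Pool.Agent.P.MP_7b0970_co

/-- The value of the standard normal density at zero. -/
noncomputable def ph : ℝ := (√(2 * π))⁻¹

lemma ph_pos : 0 < ph := by unfold ph; positivity

lemma ph_lower : 0.3989 ≤ ph := by
  unfold ph
  rw [le_inv_comm₀ (by norm_num) (by positivity), sqrt_le_left (by norm_num)]
  have := pi_lt_d4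
  norm_num at this ⊢
  linarith

lemma ph_upper : ph ≤ 0.39895 := by
  unfold ph
  rw [inv_le_comm₀ (by positivity) (by norm_num), le_sqrt (by norm_num) (by positivity)]
  have := pi_gt_d6
  norm_num at this ⊢
  linarith

lemma pdf_eq (x : ℝ) : gaussianPDFReal 0 1 x = ph * exp (-(1 / 2) * x ^ 2) := by
  simp only [gaussianPDFReal, ph, NNReal.coe_one, mul_one, sub_zero]
  congr 2
  ring

lemma integrable_id_gauss : Integrable (fun x : ℝ => x) (gaussianReal 0 1) :=
  memLp_one_iff_integrable.1 (memLp_id_gaussianReal 1)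

lemma integrable_abs_gauss : Integrable (fun x : ℝ => |x|) (gaussianReal 0 1) :=
  integrable_id_gauss.abs

lemma integrable_sq_gauss : Integrable (fun x : ℝ => x ^ 2) (gaussianReal 0 1) :=
  (memLp_id_gaussianReal 2).integrable_sq

lemma integral_sq_gauss : ∫ x, x ^ 2 ∂(gaussianReal 0 1) = 1 := by
  have h := variance_fun_id_gaussianReal (μ := 0) (v := 1)
  rw [variance_of_integral_eq_zero (by fun_prop) (by simp)] at h
  simpa using h

lemma integral_abs_gauss : ∫ x, |x| ∂(gaussianReal 0 1) = 2 * ph := by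
  rw [integral_gaussianReal_eq_integral_smul one_ne_zero]
  have h := integral_comp_abs (f := fun x : ℝ => ph * (x * exp (-(1 / 2) * x ^ 2)))
  have h2 := integral_rpow_mul_exp_neg_mul_rpow (p := 2) (q := 1) (b := 1 / 2) (by norm_num)
    (by norm_num) (by norm_num)
  simp only [rpow_one, rpow_two] at h2
  rw [integral_const_mul, integral_const_mul, h2] at h
  have e : ((1 : ℝ) / 2) ^ (-((1 : ℝ) + 1) / 2) * (1 / 2) * Gamma ((1 + 1) / 2) = 1 := by
    norm_num
  rw [e, mul_one] at h
  rw [← h, ← integral_const_mul]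
  refine integral_congr_ae (Filter.Eventually.of_forall fun x => ?_)
  simp only [pdf_eq, smul_eq_mul, sq_abs]
  ring

lemma integral_tent {l s : ℝ} (hl : 0 ≤ l) (hs : 0 < s) :
    Integrable (fun x : ℝ => max (l - s * |x|) 0) ∧ ∫ x, max (l - s * |x|) 0 = l ^ 2 / s := by
  have hc : Continuous fun x : ℝ => max (l - s * |x|) 0 := by fun_prop
  have hq : 0 ≤ l / s := by positivity
  constructor
  · refine hc.integrable_of_hasCompactSupport ?_
    refine HasCompactSupport.intro (isCompact_Icc (a := -(l / s)) (b := l / s)) fun x hx => ?_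
    refine max_eq_right ?_
    have : l / s < |x| := by
      by_contra h
      exact hx (abs_le.1 (not_lt.1 h))
    rw [div_lt_iff₀ hs] at this
    linarith
  · rw [integral_comp_abs (f := fun x : ℝ => max (l - s * x) 0)]
    have e : ∫ x in Ioi (0 : ℝ), max (l - s * x) 0 = ∫ x in Ioc (0 : ℝ) (l / s), (l - s * x) := by
      rw [setIntegral_eq_of_subset_of_forall_sdiff_eq_zero (s := Ioc (0 : ℝ) (l / s))
        measurableSet_Ioi Ioc_subset_Ioi_self]
      · refine setIntegral_congr_fun measurableSet_Ioc fun x hx => max_eq_left ?_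
        have := hx.2
        rw [le_div_iff₀ hs] at this
        linarith
      · intro x hx
        refine max_eq_right ?_
        have : l / s < x := by
          by_contra h
          exact hx.2 ⟨hx.1, not_lt.1 h⟩
        rw [div_lt_iff₀ hs] at this
        linarith
    rw [e, ← intervalIntegral.integral_of_le hq, intervalIntegral.integral_sub (by simp)
      (Continuous.intervalIntegrable (by fun_prop) _ _), intervalIntegral.integral_const_mul,
      integral_id]
    simp only [intervalIntegral.integral_const, sub_zero, smul_eq_mul]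
    field_simp
    ring

lemma integrable_max (l s : ℝ) :
    Integrable (fun x : ℝ => max l (s * |x|)) (gaussianReal 0 1) :=
  (integrable_const l).sup (integrable_abs_gauss.const_mul s)

lemma integral_abs_eq_max (a : ℝ) {s : ℝ} (hs : 0 ≤ s) :
    ∫ x, |a + s * x| ∂(gaussianReal 0 1) = ∫ x, max |a| (s * |x|) ∂(gaussianReal 0 1) := by
  have i1 : Integrable (fun x : ℝ => |a + s * x|) (gaussianReal 0 1) :=
    ((integrable_const a).add (integrable_id_gauss.const_mul s)).abs
  have i2 : Integrable (fun x : ℝ => |a - s * x|) (gaussianReal 0 1) :=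
    ((integrable_const a).sub (integrable_id_gauss.const_mul s)).abs
  have e1 : ∫ x, |a - s * x| ∂(gaussianReal 0 1) = ∫ x, |a + s * x| ∂(gaussianReal 0 1) := by
    have hm : (gaussianReal 0 1).map (fun x : ℝ => -x) = gaussianReal 0 1 := by
      rw [gaussianReal_map_neg, neg_zero]
    conv_rhs => rw [← hm, integral_map (by fun_prop) (by fun_prop)]
    simp only [mul_neg, sub_eq_add_neg]
  have e2 : ∫ x, (|a + s * x| + |a - s * x|) ∂(gaussianReal 0 1)
      = ∫ x, 2 * max |a| (s * |x|) ∂(gaussianReal 0 1) := by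
    refine integral_congr_ae (Filter.Eventually.of_forall fun x => ?_)
    have : s * |x| = |s * x| := by rw [abs_mul, abs_of_nonneg hs]
    simp only [this]
    generalize s * x = z
    rcases le_total |a| |z| with h | h
    · rw [max_eq_right h]
      cases abs_cases a <;> cases abs_cases z <;> cases abs_cases (a + z) <;>
        cases abs_cases (a - z) <;> linarith
    · rw [max_eq_left h]
      cases abs_cases a <;> cases abs_cases z <;> cases abs_cases (a + z) <;>
        cases abs_cases (a - z) <;> linarith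
  rw [integral_add i1 i2, e1, integral_const_mul] at e2
  linarith

lemma max_bound1 {l s : ℝ} (hl : 0 ≤ l) (hs : 0 < s) :
    ∫ x, max l (s * |x|) ∂(gaussianReal 0 1) ≤ 2 * ph * s + ph * (l ^ 2 / s) := by
  obtain ⟨i1, e1⟩ := integral_tent hl hs
  have i2 : Integrable (fun x : ℝ => max (l - s * |x|) 0) (gaussianReal 0 1) :=
    ((integrable_const l).sub (integrable_abs_gauss.const_mul s)).sup (integrable_const 0)
  have e : ∀ x : ℝ, max l (s * |x|) = s * |x| + max (l - s * |x|) 0 := fun x => by
    rcases le_total l (s * |x|) with h | h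
    · rw [max_eq_right h, max_eq_right (by linarith), add_zero]
    · rw [max_eq_left h, max_eq_left (by linarith)]; ring
  simp_rw [e]
  rw [integral_add (integrable_abs_gauss.const_mul s) i2, integral_const_mul, integral_abs_gauss]
  have h : ∫ x, max (l - s * |x|) 0 ∂(gaussianReal 0 1) ≤ ph * (l ^ 2 / s) := by
    rw [integral_gaussianReal_eq_integral_smul one_ne_zero, ← e1, ← integral_const_mul]
    refine integral_mono_of_nonneg (Filter.Eventually.of_forall fun x => ?_) (i1.const_mul _)
      (Filter.Eventually.of_forall fun x => ?_)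
    · exact smul_nonneg (gaussianPDFReal_nonneg _ _ _) (le_max_right _ _)
    · simp only [smul_eq_mul, pdf_eq]
      refine mul_le_mul_of_nonneg_right ?_ (le_max_right _ _)
      refine mul_le_of_le_one_right ph_pos.le (exp_le_one_iff.2 ?_)
      nlinarith [sq_nonneg x]
  linarith

lemma max_bound2 {l s : ℝ} (hd : 0 < 4 * l - 2 * s) :
    ∫ x, max l (s * |x|) ∂(gaussianReal 0 1) ≤ l + s ^ 2 * (5 / 4 - 2 * ph) / (4 * l - 2 * s) := by
  set D := 4 * l - 2 * s with hD
  have i1 : Integrable (fun x : ℝ => s ^ 2 / D * x ^ 2) (gaussianReal 0 1) :=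
    integrable_sq_gauss.const_mul _
  have i2 : Integrable (fun x : ℝ => s ^ 2 / D * |x|) (gaussianReal 0 1) :=
    integrable_abs_gauss.const_mul _
  have i3 : Integrable (fun x : ℝ => s ^ 2 / D * x ^ 2 - s ^ 2 / D * |x|) (gaussianReal 0 1) :=
    i1.sub i2
  have e : ∫ x, ((l + s ^ 2 / D / 4) + (s ^ 2 / D * x ^ 2 - s ^ 2 / D * |x|)) ∂(gaussianReal 0 1)
      = l + s ^ 2 * (5 / 4 - 2 * ph) / D := by
    rw [integral_add (integrable_const _) i3, integral_sub i1 i2, integral_const_mul,
      integral_const_mul, integral_sq_gauss, integral_abs_gauss]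
    simp only [integral_const, probReal_univ, smul_eq_mul]
    ring
  rw [← e]
  refine integral_mono (integrable_max l s) ((integrable_const _).add i3) fun x => ?_
  have e2 : (l + s ^ 2 / D / 4) + (s ^ 2 / D * x ^ 2 - s ^ 2 / D * |x|)
      = l + (s * |x| - s / 2) ^ 2 / D := by
    rw [← sq_abs x]; ring
  simp only [e2]
  refine max_le (le_add_of_nonneg_right (by positivity)) ?_
  rw [← sub_le_iff_le_add', le_div_iff₀ hd, hD]
  nlinarith [sq_nonneg (s * |x| - 2 * l + s / 2)]

lemma max_bound {l s : ℝ} (hl : 0 ≤ l) (hl' : l ≤ 13 / 20) (hs : 0 ≤ s) :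
    ∫ x, max l (s * |x|) ∂(gaussianReal 0 1)
      ≤ ph * (1 + 3 / 2 * l ^ 2) + ph * (1 - l ^ 2 / 2) * s ^ 2 := by
  have p1 := ph_lower
  have p2 := ph_upper
  have hB : 0.78 ≤ 1 - l ^ 2 / 2 := by nlinarith
  have hα : l ≤ ph * (1 + 3 / 2 * l ^ 2) := by
    have : l ≤ 0.3989 * (1 + 3 / 2 * l ^ 2) := by nlinarith
    exact this.trans (mul_le_mul_of_nonneg_right p1 (by positivity))
  rcases hs.eq_or_lt with rfl | hs
  · simp only [zero_mul, max_eq_left hl, integral_const, probReal_univ, smul_eq_mul, one_mul]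
    nlinarith
  by_cases hc : l ^ 2 ≤ (1 - l ^ 2 / 2) * s
  · refine (max_bound1 hl hs).trans ?_
    have h : 2 * s + l ^ 2 / s ≤ (1 + 3 / 2 * l ^ 2) + (1 - l ^ 2 / 2) * s ^ 2 := by
      rw [← le_sub_iff_add_le', div_le_iff₀ hs]
      nlinarith [mul_nonneg (sq_nonneg (s - 1)) (sub_nonneg.2 hc)]
    nlinarith [mul_le_mul_of_nonneg_left h ph_pos.le]
  · push Not at hc
    have hl0 : 0 < l := by
      rcases hl.eq_or_lt with rfl | h
      · nlinarith
      · exact h
    have hsl : s ≤ 0.84 * l := by nlinarith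
    have hd : 0 < 4 * l - 2 * s := by linarith
    refine (max_bound2 hd).trans ?_
    by_cases h4 : 2 / 5 ≤ l
    · have h1 : 1.15 ≤ (1 - l ^ 2 / 2) * (4 * l - 2 * s) := by
        have : 1.15 ≤ 4 * l - 2 * l ^ 2 - 2 * l ^ 3 := by
          nlinarith [mul_nonneg (sub_nonneg.2 h4) (sub_nonneg.2 hl')]
        nlinarith
      have h2 : s ^ 2 * (5 / 4 - 2 * ph) / (4 * l - 2 * s) ≤ ph * (1 - l ^ 2 / 2) * s ^ 2 := by
        rw [div_le_iff₀ hd]
        have : 5 / 4 - 2 * ph ≤ ph * ((1 - l ^ 2 / 2) * (4 * l - 2 * s)) := by nlinarith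
        nlinarith [mul_le_mul_of_nonneg_left this (sq_nonneg s)]
      linarith
    · push Not at h4
      have hs2 : s ≤ 0.44 * l := by nlinarith
      have h2 : s ^ 2 * (5 / 4 - 2 * ph) / (4 * l - 2 * s) ≤ 0.03 * l := by
        rw [div_le_iff₀ hd]
        have : s ^ 2 ≤ (0.44 * l) ^ 2 := by gcongr
        nlinarith
      have h3 : 1.03 * l ≤ ph * (1 + 3 / 2 * l ^ 2) := by
        have : 1.03 * l ≤ 0.3989 * (1 + 3 / 2 * l ^ 2) := by nlinarith
        exact this.trans (mul_le_mul_of_nonneg_right p1 (by positivity))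
      have : 0 ≤ ph * (1 - l ^ 2 / 2) * s ^ 2 := by positivity
      linarith

lemma gauss_scale (v : ℝ≥0) :
    gaussianReal 0 v = (gaussianReal 0 1).map (fun x => √v * x) := by
  rw [gaussianReal_map_const_mul, mul_zero]
  congr 1
  ext
  simp

theorem gauss_lin {a : ℝ} (ha : |a| ≤ 13 / 20) (v : ℝ≥0) :
    ∫⁻ z, ENNReal.ofReal |a + z| ∂(gaussianReal 0 v)
      ≤ ENNReal.ofReal (ph * (1 + 3 / 2 * a ^ 2) + ph * (1 - a ^ 2 / 2) * v) := by
  rw [gauss_scale, lintegral_map (by fun_prop) (by fun_prop),
    ← ofReal_integral_eq_lintegral_ofReal]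
  · refine ENNReal.ofReal_le_ofReal ?_
    rw [integral_abs_eq_max a (sqrt_nonneg _)]
    have := max_bound (abs_nonneg a) ha (sqrt_nonneg (v : ℝ))
    rwa [sq_abs, sq_sqrt (NNReal.coe_nonneg v)] at this
  · exact ((integrable_const a).add (integrable_id_gauss.const_mul _)).abs
  · exact Filter.Eventually.of_forall fun x => abs_nonneg _

end Pool.Agent.P.MP_7b0970_co
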