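import Mathlib

/-! Hypographs of functions with values in the extended nonnegative reals. -/

open MeasureTheory Set
open scoped ENNReal

namespace Pool.Agent.P.MP_7b0970_co

variable {V : Type*} [MeasurableSpace V]

/-- The region under the graph of `g`. -/
def hyp (g : V → ℝ≥0∞) : Set (V × ℝ) := {p | 0 ≤ p.2 ∧ ENNReal.ofReal p.2 < g p.1}

lemma measurableSet_hyp {g : V → ℝ≥0∞} (hg : Measurable g) : MeasurableSet (hyp g) := by
  refine (measurableSet_le measurable_const measurable_snd).inter ?_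
  exact measurableSet_lt (measurable_snd.ennreal_ofReal) (hg.comp measurable_fst)

lemma sec_eq {c : ℝ≥0∞} (hc : c ≠ ∞) :
    {h : ℝ | 0 ≤ h ∧ ENNReal.ofReal h < c} = Ico 0 c.toReal := by
  ext h
  simp only [mem_ofPred_eq, mem_Ico]
  constructor
  · rintro ⟨h0, h1⟩
    exact ⟨h0, (ENNReal.ofReal_lt_iff_lt_toReal h0 hc).1 h1⟩
  · rintro ⟨h0, h1⟩
    exact ⟨h0, (ENNReal.ofReal_lt_iff_lt_toReal h0 hc).2 h1⟩

lemma vol_sec {c : ℝ≥0∞} (hc : c ≠ ∞) :
    volume {h : ℝ | 0 ≤ h ∧ ENNReal.ofReal h < c} = c := by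
  rw [sec_eq hc, Real.volume_Ico, sub_zero, ENNReal.ofReal_toReal hc]

lemma lintegral_sec {c : ℝ≥0∞} (hc : c ≠ ∞) :
    ∫⁻ h in {h : ℝ | 0 ≤ h ∧ ENNReal.ofReal h < c}, ENNReal.ofReal h = c ^ 2 / 2 := by
  rw [sec_eq hc]
  have h0 : 0 ≤ c.toReal := ENNReal.toReal_nonneg
  rw [← ofReal_integral_eq_lintegral_ofReal]
  · rw [integral_Ico_eq_integral_Ioc, ← intervalIntegral.integral_of_le h0, integral_id]
    conv_rhs => rw [← ENNReal.ofReal_toReal hc]
    rw [← ENNReal.ofReal_pow h0, ENNReal.ofReal_div_of_pos (by norm_num)]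
    simp
  · exact (continuous_id.integrableOn_Icc).mono_set Ico_subset_Icc_self
  · exact (ae_restrict_iff' measurableSet_Ico).2 (Filter.Eventually.of_forall fun x hx => hx.1)

lemma lintegral_hyp (μ : Measure V) [SFinite μ] {g : V → ℝ≥0∞} (hg : Measurable g)
    (F : V × ℝ → ℝ≥0∞) (hF : Measurable F) :
    ∫⁻ p in hyp g, F p ∂(μ.prod volume)
      = ∫⁻ x, ∫⁻ h in {h : ℝ | 0 ≤ h ∧ ENNReal.ofReal h < g x}, F (x, h) ∂volume ∂μ := by
  rw [← lintegral_indicator (measurableSet_hyp hg),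
    lintegral_prod _ (hF.indicator (measurableSet_hyp hg)).aemeasurable]
  refine lintegral_congr fun x => ?_
  have hm : MeasurableSet {h : ℝ | 0 ≤ h ∧ ENNReal.ofReal h < g x} :=
    (measurableSet_le measurable_const measurable_id).inter
      (measurableSet_lt measurable_id.ennreal_ofReal measurable_const)
  rw [← lintegral_indicator hm]
  rfl

lemma lintegral_hyp_fst (μ : Measure V) [SFinite μ] {g : V → ℝ≥0∞} (hg : Measurable g)
    (hfin : ∀ x, g x ≠ ∞) (F : V → ℝ≥0∞) (hF : Measurable F) :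
    ∫⁻ p in hyp g, F p.1 ∂(μ.prod volume) = ∫⁻ x, F x * g x ∂μ := by
  rw [lintegral_hyp μ hg (fun p => F p.1) (hF.comp measurable_fst)]
  refine lintegral_congr fun x => ?_
  simp only [lintegral_const, Measure.restrict_apply MeasurableSet.univ, univ_inter]
  rw [vol_sec (hfin x)]

lemma measure_hyp (μ : Measure V) [SFinite μ] {g : V → ℝ≥0∞} (hg : Measurable g)
    (hfin : ∀ x, g x ≠ ∞) : (μ.prod volume) (hyp g) = ∫⁻ x, g x ∂μ := by
  have := lintegral_hyp_fst μ hg hfin (fun _ => 1) measurable_const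
  simpa using this

lemma lintegral_hyp_snd (μ : Measure V) [SFinite μ] {g : V → ℝ≥0∞} (hg : Measurable g)
    (hfin : ∀ x, g x ≠ ∞) :
    ∫⁻ p in hyp g, ENNReal.ofReal p.2 ∂(μ.prod volume) = ∫⁻ x, g x ^ 2 / 2 ∂μ := by
  rw [lintegral_hyp μ hg (fun p => ENNReal.ofReal p.2) measurable_snd.ennreal_ofReal]
  exact lintegral_congr fun x => lintegral_sec (hfin x)

lemma map_fst_hyp (μ : Measure V) [SFinite μ] {g : V → ℝ≥0∞} (hg : Measurable g)
    (hfin : ∀ x, g x ≠ ∞) :
    ((μ.prod volume).restrict (hyp g)).map Prod.fst = μ.withDensity g := by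
  refine Measure.ext_of_lintegral _ fun F hF => ?_
  rw [lintegral_map hF measurable_fst, lintegral_hyp_fst μ hg hfin F hF,
    lintegral_withDensity_eq_lintegral_mul _ hg hF]
  simp only [Pi.mul_apply, mul_comm]

end Pool.Agent.P.MP_7b0970_co
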