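import Pool.Agent.P.MP_7b0970_co.Mix

/-! The distance in mean between the product bump and its translate. -/

open MeasureTheory Set ProbabilityTheory Real Filter Topology
open scoped ENNReal NNReal

namespace Pool.Agent.P.MP_7b0970_co

lemma hasDerivAt_bump (x : ℝ) : HasDerivAt bump (-2 * tan x * bump x) x := by
  rcases lt_trichotomy |x| (π / 2) with h | h | h
  · have hc := cos_pos_of_mem_Ioo (abs_lt.1 h)
    have h1 : HasDerivAt (fun y => cos y ^ 2) (-2 * tan x * bump x) x := by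
      refine ((hasDerivAt_cos x).fun_pow 2).congr_deriv ?_
      rw [bump, if_pos h, tan_eq_sin_div_cos]
      field_simp
      simp only [Nat.cast_ofNat, Nat.add_one_sub_one, pow_one]
      ring
    refine h1.congr_of_eventuallyEq ?_
    have : ∀ᶠ y in 𝓝 x, |y| < π / 2 := continuous_abs.continuousAt.eventually_lt_const h
    exact this.mono fun y hy => by simp only [bump, if_pos hy]
  · have hb : bump x = 0 := by rw [bump, if_neg (by rw [h]; exact lt_irrefl _)]
    have hc : cos x = 0 := by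
      rw [← cos_abs, h, cos_pi_div_two]
    rw [hb, mul_zero]
    have h1 : HasDerivAt (fun y => cos y ^ 2) 0 x := by
      refine ((hasDerivAt_cos x).fun_pow 2).congr_deriv ?_
      simp [hc]
    rw [hasDerivAt_iff_isLittleO] at h1 ⊢
    refine Asymptotics.IsBigO.trans_isLittleO ?_ h1
    refine Asymptotics.IsBigO.of_norm_le fun y => ?_
    simp only [hb, hc, sub_zero, smul_zero, ne_eq, OfNat.ofNat_ne_zero, not_false_eq_true,
      zero_pow, norm_eq_abs, abs_of_nonneg (bump_nonneg y)]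
    unfold bump
    split_ifs
    · exact le_rfl
    · positivity
  · have hb : bump x = 0 := by rw [bump, if_neg (not_lt.2 h.le)]
    rw [hb, mul_zero]
    refine (hasDerivAt_const x (0 : ℝ)).congr_of_eventuallyEq ?_
    have : ∀ᶠ y in 𝓝 x, π / 2 < |y| := continuous_abs.continuousAt.eventually_const_lt h
    exact this.mono fun y hy => by simp only [bump, if_neg (not_lt.2 hy.le)]

lemma hasDerivAt_dens {m : ℕ} (x u : Fin m → ℝ) (s : ℝ) :
    HasDerivAt (fun s : ℝ => dens (x + s • u))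
      (dens (x + s • u) * ∑ i, -2 * u i * tan ((x + s • u) i)) s := by
  have h : ∀ i ∈ (Finset.univ : Finset (Fin m)), HasDerivAt (fun s : ℝ => bump ((x + s • u) i))
      (-2 * tan ((x + s • u) i) * bump ((x + s • u) i) * u i) s := fun i _ => by
    have h1 : HasDerivAt (fun s : ℝ => (x + s • u) i) (u i) s := by
      simpa using ((hasDerivAt_id s).mul_const (u i)).const_add (x i)
    exact (hasDerivAt_bump _).comp s h1
  refine (HasDerivAt.fun_finsetProd h).congr_deriv (Eq.symm ?_)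
  rw [Finset.mul_sum]
  refine Finset.sum_congr rfl fun i hi => ?_
  rw [dens, ← Finset.mul_prod_erase _ _ hi, smul_eq_mul]
  ring

lemma abs_sub_le_lintegral {f f' : ℝ → ℝ} (h : ∀ s, HasDerivAt f (f' s) s) (hm : Measurable f') :
    ENNReal.ofReal |f 1 - f 0| ≤ ∫⁻ s in Ioc (0 : ℝ) 1, ENNReal.ofReal |f' s| := by
  simp only [← Real.enorm_eq_ofReal_abs]
  by_cases hi : ∫⁻ s in Ioc (0 : ℝ) 1, ‖f' s‖ₑ = ∞
  · rw [hi]; exact le_top
  have hint : IntervalIntegrable f' volume 0 1 := by
    rw [intervalIntegrable_iff_integrableOn_Ioc_of_le zero_le_one]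
    exact ⟨hm.aestronglyMeasurable, lt_top_iff_ne_top.2 hi⟩
  rw [← intervalIntegral.integral_eq_sub_of_hasDerivAt (fun s _ => h s) hint,
    intervalIntegral.integral_of_le zero_le_one]
  exact enorm_integral_le_lintegral_enorm _

lemma shift_le {m : ℕ} (u : Fin m → ℝ) {w w' : ℝ → ℝ} (hw : ∀ s, HasDerivAt w (w' s) s)
    (hm : Measurable w) (hm' : Measurable w') (h0 : w 0 = 1) (h1 : w 1 = 1) :
    ∫⁻ x, ENNReal.ofReal |dens (x + u) - dens x| ≤ ∫⁻ s in Ioc (0 : ℝ) 1, ∫⁻ y : Fin m → ℝ,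
      ENNReal.ofReal (dens y) * ENNReal.ofReal |w' s + ∑ i, (-2 * w s * u i) * tan (y i)| := by
  set G : ℝ → (Fin m → ℝ) → ℝ := fun s y =>
    w' s * dens y + w s * (dens y * ∑ i, -2 * u i * tan (y i)) with hG
  have hGm : Measurable fun p : ℝ × (Fin m → ℝ) => G p.1 p.2 :=
    ((hm'.comp measurable_fst).mul (measurable_dens.comp measurable_snd)).add
      ((hm.comp measurable_fst).mul ((measurable_dens.comp measurable_snd).mul
        ((measurable_score fun i => -2 * u i).comp measurable_snd)))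
  have hGm2 : Measurable fun p : (Fin m → ℝ) × ℝ => G p.2 (p.1 + p.2 • u) :=
    hGm.comp (f := fun p : (Fin m → ℝ) × ℝ => (p.2, p.1 + p.2 • u)) (by fun_prop)
  have hp : ∀ x, ENNReal.ofReal |dens (x + u) - dens x|
      ≤ ∫⁻ s in Ioc (0 : ℝ) 1, ENNReal.ofReal |G s (x + s • u)| := fun x => by
    have := abs_sub_le_lintegral (f := fun s => w s * dens (x + s • u))
      (f' := fun s => G s (x + s • u)) (fun s => (hw s).fun_mul (hasDerivAt_dens x u s))
      (hGm2.comp (f := fun s : ℝ => (x, s)) (by fun_prop))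
    simpa [h0, h1] using this
  refine (lintegral_mono hp).trans (le_of_eq ?_)
  rw [lintegral_lintegral_swap (hGm2.abs.ennreal_ofReal).aemeasurable]
  refine lintegral_congr fun s => ?_
  rw [lintegral_add_right_eq_self (fun y => ENNReal.ofReal |G s y|) (s • u)]
  refine lintegral_congr fun y => ?_
  rw [← ENNReal.ofReal_mul (dens_nonneg y)]
  congr 1
  have e : ∑ i, (-2 * w s * u i) * tan (y i) = w s * ∑ i, -2 * u i * tan (y i) := by
    rw [Finset.mul_sum]
    exact Finset.sum_congr rfl fun i _ => by ring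
  rw [e, ← abs_of_nonneg (dens_nonneg y), ← abs_mul, hG]
  congr 1
  ring

lemma score_le {m : ℕ} {a b : ℝ} (hb : 0 < b) (hab : |a| ≤ 13 / 20 * b) (w : Fin m → ℝ)
    (hw : ∑ i, w i ^ 2 ≤ b ^ 2) :
    ∫⁻ y : Fin m → ℝ, ENNReal.ofReal (dens y) * ENNReal.ofReal |a + ∑ i, w i * tan (y i)|
      ≤ ENNReal.ofReal ((π / 2) ^ m * (ph * (2 * b + a ^ 2 / b))) := by
  have hl : |a / b| ≤ 13 / 20 := by rwa [abs_div, abs_of_pos hb, div_le_iff₀ hb]
  have hl2 : (a / b) ^ 2 ≤ 1 := by
    rw [← sq_abs]; nlinarith [abs_nonneg (a / b)]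
  have hp := ph_pos
  have hβ : 0 ≤ ph * (1 - (a / b) ^ 2 / 2) := mul_nonneg hp.le (by linarith)
  have h := mix m (fun i => w i / b) (fun z => ENNReal.ofReal |a / b + z|) _ _ (by fun_prop)
    (by positivity) hβ (gauss_lin hl)
  have e : ∀ y : Fin m → ℝ, ENNReal.ofReal (dens y) * ENNReal.ofReal |a + ∑ i, w i * tan (y i)|
      = ENNReal.ofReal b * (ENNReal.ofReal (dens y) *
        ENNReal.ofReal |a / b + ∑ i, w i / b * tan (y i)|) := fun y => by
    have : a + ∑ i, w i * tan (y i) = b * (a / b + ∑ i, w i / b * tan (y i)) := by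
      rw [mul_add, Finset.mul_sum]
      congr 1
      · field_simp
      · exact Finset.sum_congr rfl fun i _ => by field_simp
    rw [this, abs_mul, abs_of_pos hb, ENNReal.ofReal_mul hb.le]
    ring
  simp_rw [e]
  rw [lintegral_const_mul' _ _ (by simp)]
  refine (mul_le_mul_right h _).trans ?_
  rw [← ENNReal.ofReal_mul hb.le]
  refine ENNReal.ofReal_le_ofReal ?_
  have h1 : ∑ i, (w i / b) ^ 2 ≤ 1 := by
    simp_rw [div_pow]
    rwa [← Finset.sum_div, div_le_one (by positivity)]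
  have h2 := mul_le_mul_of_nonneg_left h1 hβ
  rw [mul_left_comm]
  refine mul_le_mul_of_nonneg_left ?_ (by positivity)
  have e2 : ph * (2 * b + a ^ 2 / b)
      = b * (ph * (1 + 3 / 2 * (a / b) ^ 2) + ph * (1 - (a / b) ^ 2 / 2) * 1) := by
    field_simp; ring
  rw [e2]
  exact mul_le_mul_of_nonneg_left (by linarith) hb.le

theorem shift_bound {m : ℕ} (u : Fin m → ℝ) {X i : ℝ} (hX : 0 ≤ X) (hX' : X ≤ 6) (hi : 0 ≤ i)
    (hi' : 2 * i ≤ 13 / 20) (hu : ∑ k, u k ^ 2 ≤ (X / 2) ^ 2) :
    ∫⁻ x, ENNReal.ofReal |dens (x + u) - dens x| ≤ ENNReal.ofReal ((π / 2) ^ m *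
      (ph * (2 * X * (1 - i * X / 3 + (i * X) ^ 2 / 30) + 4 * i ^ 2 * X / 3))) := by
  rcases hX.eq_or_lt with rfl | hX
  · have : u = 0 := by
      funext k
      have h1 := Finset.single_le_sum (f := fun k => u k ^ 2) (fun k _ => sq_nonneg _)
        (Finset.mem_univ k)
      have : u k ^ 2 ≤ 0 := by simpa using h1.trans hu
      simpa using le_antisymm this (sq_nonneg _)
    simp [this]
  set j := i * X with hj
  have hj0 : 0 ≤ j := by positivity
  have hj2 : j ≤ 2 := by nlinarith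
  have hd : ∀ s : ℝ, HasDerivAt (fun s : ℝ => (1 - j * (s * (1 - s))) ^ 2)
      (2 * (1 - j * (s * (1 - s))) * (-j * (1 - 2 * s))) s := fun s => by
    have := ((((hasDerivAt_id' s).fun_mul ((hasDerivAt_id' s).const_sub 1)).const_mul
      j).const_sub 1).fun_pow 2
    refine this.congr_deriv ?_
    simp only [Nat.cast_ofNat, Nat.add_one_sub_one, pow_one]
    ring
  refine (shift_le u hd (by fun_prop) (by fun_prop) (by simp) (by simp)).trans ?_
  have hp := ph_pos
  have hs : ∀ s ∈ Ioc (0 : ℝ) 1, ∫⁻ y : Fin m → ℝ, ENNReal.ofReal (dens y) * ENNReal.ofReal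
      |2 * (1 - j * (s * (1 - s))) * (-j * (1 - 2 * s))
        + ∑ k, (-2 * (1 - j * (s * (1 - s))) ^ 2 * u k) * tan (y k)|
      ≤ ENNReal.ofReal ((π / 2) ^ m * (ph * (2 * X * (1 - j * (s * (1 - s))) ^ 2
        + 4 * i ^ 2 * X * (1 - 2 * s) ^ 2))) := fun s hs => by
    have q0 : 0 ≤ s * (1 - s) := mul_nonneg hs.1.le (sub_nonneg.2 hs.2)
    have q1 : 2 * (s * (1 - s)) + |1 - 2 * s| ≤ 1 := by
      cases abs_cases (1 - 2 * s) <;> nlinarith [sq_nonneg s, sq_nonneg (1 - s)]
    have q2 : |1 - 2 * s| ≤ 1 - j * (s * (1 - s)) := by nlinarith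
    have q3 : 0 < 1 - j * (s * (1 - s)) := by nlinarith [sq_nonneg (1 - 2 * s)]
    set e := 1 - j * (s * (1 - s)) with he
    refine (score_le (b := e ^ 2 * X) (by positivity) ?_ _ ?_).trans (le_of_eq ?_)
    · rw [abs_mul, abs_of_pos (by positivity : 0 < 2 * e), abs_mul, abs_neg, abs_of_nonneg hj0, hj]
      have : 2 * i * |1 - 2 * s| ≤ 13 / 20 * e :=
        mul_le_mul hi' q2 (abs_nonneg _) (by norm_num)
      nlinarith [mul_le_mul_of_nonneg_left this (mul_pos q3 hX).le]
    · have : ∀ k, (-2 * e ^ 2 * u k) ^ 2 = 4 * e ^ 4 * u k ^ 2 := fun k => by ring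
      simp_rw [this]
      rw [← Finset.mul_sum]
      nlinarith [mul_le_mul_of_nonneg_left hu (by positivity : 0 ≤ 4 * e ^ 4)]
    · congr 3
      rw [hj]
      field_simp
      ring
  refine (setLIntegral_mono' measurableSet_Ioc hs).trans (le_of_eq ?_)
  rw [← ofReal_integral_eq_lintegral_ofReal (Continuous.integrableOn_Ioc (by fun_prop))
    (Eventually.of_forall fun s => by positivity), ← intervalIntegral.integral_of_le zero_le_one,
    intervalIntegral.integral_const_mul, intervalIntegral.integral_const_mul]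
  congr 3
  have hD : ∀ s : ℝ, HasDerivAt (fun s : ℝ => (2 * X + 4 * i ^ 2 * X) * s ^ 1
      + (-2 * X * j - 8 * i ^ 2 * X) * s ^ 2
      + (2 * X * (2 * j + j ^ 2) / 3 + 16 * i ^ 2 * X / 3) * s ^ 3
      + (-X * j ^ 2) * s ^ 4 + (2 * X * j ^ 2 / 5) * s ^ 5)
      (2 * X * (1 - j * (s * (1 - s))) ^ 2 + 4 * i ^ 2 * X * (1 - 2 * s) ^ 2) s := fun s => by
    have := (((((hasDerivAt_pow 1 s).const_mul (2 * X + 4 * i ^ 2 * X)).fun_add
      ((hasDerivAt_pow 2 s).const_mul (-2 * X * j - 8 * i ^ 2 * X))).fun_add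
      ((hasDerivAt_pow 3 s).const_mul (2 * X * (2 * j + j ^ 2) / 3 + 16 * i ^ 2 * X / 3))).fun_add
      ((hasDerivAt_pow 4 s).const_mul (-X * j ^ 2))).fun_add
      ((hasDerivAt_pow 5 s).const_mul (2 * X * j ^ 2 / 5))
    refine this.congr_deriv ?_
    push_cast
    ring
  rw [intervalIntegral.integral_eq_sub_of_hasDerivAt (fun s _ => hD s)
    (Continuous.intervalIntegrable (by fun_prop) _ _)]
  ring

lemma lintegral_bump : ∫⁻ x, ENNReal.ofReal (bump x) = ENNReal.ofReal (π / 2) := by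
  have := mixK (fun _ => 1) measurable_const
  simp only [mul_one, lintegral_const, measure_univ] at this
  rw [this, ← ofReal_integral_eq_lintegral_ofReal integrable_sq_gauss
    (Eventually.of_forall fun x => sq_nonneg _), integral_sq_gauss]
  simp

lemma lintegral_dens (m : ℕ) :
    ∫⁻ y : Fin m → ℝ, ENNReal.ofReal (dens y) = ENNReal.ofReal ((π / 2) ^ m) := by
  induction m with
  | zero => simp [dens, volume_pi]
  | succ m ih =>
    rw [lintegral_succ (fun y => ENNReal.ofReal (dens y)) measurable_dens.ennreal_ofReal,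
      pow_succ, ENNReal.ofReal_mul (by positivity), ← ih, ← lintegral_mul_const' _ _ (by simp)]
    refine lintegral_congr fun y => ?_
    rw [← lintegral_bump, ← lintegral_const_mul' _ _ (by simp)]
    refine lintegral_congr fun x => ?_
    simp only [dens, Fin.prod_univ_succ, Fin.cons_zero, Fin.cons_succ]
    rw [ENNReal.ofReal_mul (bump_nonneg _), mul_comm]

end Pool.Agent.P.MP_7b0970_co
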