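import Pool.Agent.P.MP_7b0970_co.Balance
import Pool.Agent.P.MP_7b0970_co.Shift

/-! The signing bound. -/

open MeasureTheory Set Real Filter
open scoped ENNReal

namespace Pool.Agent.P.MP_7b0970_co

lemma inner_window {f G : ℝ → ℝ} (hf : Continuous f) (hG : ∀ x, HasDerivAt G (f x) x)
    (h0 : G 0 = 0) {t : ℝ} (ht : t ∈ Icc (-3 : ℝ) 3) :
    ∫ s in (-3 : ℝ)..3, f |t - s| = G (t + 3) + G (3 - t) := by
  have hc : Continuous fun s : ℝ => f |t - s| := by fun_prop
  have hI : ∀ a b : ℝ, ∫ x in a..b, f x = G b - G a := fun a b =>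
    intervalIntegral.integral_eq_sub_of_hasDerivAt (fun x _ => hG x) (hf.intervalIntegrable _ _)
  rw [← intervalIntegral.integral_add_adjacent_intervals (b := t) (hc.intervalIntegrable _ _)
    (hc.intervalIntegrable _ _)]
  congr 1
  · rw [intervalIntegral.integral_congr (g := fun s => f (t - s)),
      intervalIntegral.integral_comp_sub_left, hI, sub_self, h0, sub_zero, sub_neg_eq_add]
    intro s hs
    rw [uIcc_of_le ht.1] at hs
    simp only [abs_of_nonneg (sub_nonneg.2 hs.2)]
  · rw [intervalIntegral.integral_congr (g := fun s => f (s - t)),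
      intervalIntegral.integral_comp_sub_right, hI, sub_self, h0, sub_zero]
    intro s hs
    rw [uIcc_of_le ht.2] at hs
    simp only [abs_sub_comm t s, abs_of_nonneg (sub_nonneg.2 hs.1)]

lemma double_window {f G H : ℝ → ℝ} (hf : Continuous f) (hG : ∀ x, HasDerivAt G (f x) x)
    (hH : ∀ x, HasDerivAt H (G x) x) (h0 : G 0 = 0) (hpos : ∀ x ∈ Icc (0 : ℝ) 6, 0 ≤ f x) :
    ∫⁻ t in Icc (-3 : ℝ) 3, ∫⁻ s in Icc (-3 : ℝ) 3, ENNReal.ofReal (f |t - s|)
      = ENNReal.ofReal (2 * (H 6 - H 0)) := by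
  have hGc : Continuous G := continuous_iff_continuousAt.2 fun x => (hG x).continuousAt
  have hn : ∀ t ∈ Icc (-3 : ℝ) 3, ∀ s ∈ Icc (-3 : ℝ) 3, 0 ≤ f |t - s| := fun t ht s hs =>
    hpos _ ⟨abs_nonneg _, abs_le.2 ⟨by linarith [ht.1, hs.2], by linarith [ht.2, hs.1]⟩⟩
  have h1 : ∀ t ∈ Icc (-3 : ℝ) 3, ∫ s in Icc (-3 : ℝ) 3, f |t - s| = G (t + 3) + G (3 - t) :=
    fun t ht => by
      rw [integral_Icc_eq_integral_Ioc, ← intervalIntegral.integral_of_le (by norm_num),
        inner_window hf hG h0 ht]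
  have h2 : ∀ t ∈ Icc (-3 : ℝ) 3, ∫⁻ s in Icc (-3 : ℝ) 3, ENNReal.ofReal (f |t - s|)
      = ENNReal.ofReal (G (t + 3) + G (3 - t)) := fun t ht => by
    rw [← h1 t ht, ofReal_integral_eq_lintegral_ofReal (Continuous.integrableOn_Icc (by fun_prop))
      ((ae_restrict_iff' measurableSet_Icc).2 (Eventually.of_forall (hn t ht)))]
  rw [setLIntegral_congr_fun measurableSet_Icc h2,
    ← ofReal_integral_eq_lintegral_ofReal (Continuous.integrableOn_Icc (by fun_prop))]
  · congr 1
    rw [integral_Icc_eq_integral_Ioc, ← intervalIntegral.integral_of_le (by norm_num)]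
    have hd : ∀ t : ℝ, HasDerivAt (fun t => H (t + 3) - H (3 - t)) (G (t + 3) + G (3 - t)) t :=
      fun t => (((hH _).comp_add_const t 3).fun_sub ((hH _).comp_const_sub 3 t)).congr_deriv
        (by ring)
    rw [intervalIntegral.integral_eq_sub_of_hasDerivAt (fun t _ => hd t)
      (Continuous.intervalIntegrable (by fun_prop) _ _)]
    norm_num
    ring
  · refine (ae_restrict_iff' measurableSet_Icc).2 (Eventually.of_forall fun t ht => ?_)
    simp only [Pi.zero_apply]
    rw [← h1 t ht]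
    exact setIntegral_nonneg measurableSet_Icc (hn t ht)

lemma hasDerivAt_poly (c : ℕ → ℝ) (N e : ℕ) (x : ℝ) :
    HasDerivAt (fun x : ℝ => ∑ k ∈ Finset.range N, c k / (k + e + 1 : ℕ) * x ^ (k + e + 1))
      (∑ k ∈ Finset.range N, c k * x ^ (k + e)) x := by
  refine HasDerivAt.fun_sum fun k _ => ?_
  refine ((hasDerivAt_pow (k + e + 1) x).const_mul _).congr_deriv ?_
  have : ((k + e + 1 : ℕ) : ℝ) ≠ 0 := by positivity
  rw [Nat.add_sub_cancel]
  field_simp

/-- The curvature parameter as a function of the length of the shift. -/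
noncomputable def par (X : ℝ) : ℝ := (3 / 5 - 7 / 50 * X) * X / 2

/-- The profile bounding the distance in mean. -/
noncomputable def prof (X : ℝ) : ℝ :=
  2 * X * (1 - par X * X / 3 + (par X * X) ^ 2 / 30) + 4 * par X ^ 2 * X / 3

/-- Coefficients of the profile. -/
noncomputable def coef : ℕ → ℝ
  | 1 => 2
  | 3 => -2 / 25
  | 4 => -7 / 750
  | 5 => 47 / 3750
  | 6 => -7 / 2500
  | 7 => 49 / 150000
  | _ => 0

lemma prof_eq (X : ℝ) : prof X = ∑ k ∈ Finset.range 8, coef k * X ^ k := by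
  simp only [prof, par, Finset.sum_range_succ, Finset.sum_range_zero, coef]
  ring

lemma par_nonneg {X : ℝ} (h0 : 0 ≤ X) (h1 : X ≤ 3) : 0 ≤ par X := by
  unfold par
  have : 0 ≤ 3 / 5 - 7 / 50 * X := by linarith
  positivity

lemma par_le (X : ℝ) : 2 * par X ≤ 13 / 20 := by
  unfold par
  nlinarith [sq_nonneg (X - 15 / 7)]

lemma prof_nonneg {X : ℝ} (h0 : 0 ≤ X) (h1 : X ≤ 3) : 0 ≤ prof X := by
  have h2 := par_nonneg h0 h1
  have h3 := par_le X
  have h4 : 0 ≤ 1 - par X * X / 3 := by nlinarith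
  unfold prof
  positivity

lemma window_prof : ∫⁻ t in Icc (-3 : ℝ) 3, ∫⁻ s in Icc (-3 : ℝ) 3,
    ENNReal.ofReal (ph * prof (0.4514 * |t - s|)) ≤ 24 := by
  set c : ℕ → ℝ := fun k => ph * (coef k * 0.4514 ^ k) with hc
  have e : ∀ x : ℝ, ph * prof (0.4514 * x) = ∑ k ∈ Finset.range 8, c k * x ^ (k + 0) := fun x => by
    rw [prof_eq, Finset.mul_sum]
    refine Finset.sum_congr rfl fun k _ => ?_
    rw [hc, mul_pow, add_zero]
    ring
  have hG := hasDerivAt_poly c 8 0
  have hH := hasDerivAt_poly (fun k => c k / (k + 0 + 1 : ℕ)) 8 1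
  simp_rw [e]
  rw [double_window (f := fun x => ∑ k ∈ Finset.range 8, c k * x ^ (k + 0)) (by fun_prop) hG hH
    (by simp)]
  · rw [← ENNReal.ofReal_ofNat 24]
    refine ENNReal.ofReal_le_ofReal ?_
    have := ph_upper
    simp only [hc, Finset.sum_range_succ, Finset.sum_range_zero, coef]
    norm_num at this ⊢
    linarith
  · intro x hx
    rw [← e]
    exact mul_nonneg ph_pos.le (prof_nonneg (by linarith [hx.1]) (by linarith [hx.2]))

/-- The region under the graph of the product bump. -/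
def body (m : ℕ) : Set ((Fin m → ℝ) × ℝ) := hyp fun x => ENNReal.ofReal (dens x)

lemma measure_body (m : ℕ) :
    ((volume : Measure (Fin m → ℝ)).prod volume) (body m) = ENNReal.ofReal ((π / 2) ^ m) := by
  rw [body, measure_hyp _ measurable_dens.ennreal_ofReal (by simp), lintegral_dens]

lemma ov_body {m : ℕ} (u : Fin m → ℝ) :
    2 * ENNReal.ofReal ((π / 2) ^ m)
      = 2 * ov ((volume : Measure (Fin m → ℝ)).prod volume) (body m) (u, 0)
        + ∫⁻ x, ENNReal.ofReal |dens (x + u) - dens x| := by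
  have hm : Measurable fun x : Fin m → ℝ => dens (x + u) :=
    measurable_dens.comp (measurable_add_const u)
  have e : {p : (Fin m → ℝ) × ℝ | p ∈ body m ∧ p + (u, 0) ∈ body m}
      = hyp fun x => ENNReal.ofReal (min (dens x) (dens (x + u))) := by
    ext p
    simp only [body, hyp, mem_ofPred_eq, Prod.snd_add, add_zero, Prod.fst_add,
      ENNReal.ofReal_min, lt_min_iff]
    tauto
  have hm2 : Measurable fun x : Fin m → ℝ => ENNReal.ofReal |dens (x + u) - dens x| :=
    (hm.sub measurable_dens).abs.ennreal_ofReal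
  rw [ov, e, measure_hyp _ (measurable_dens.min hm).ennreal_ofReal (by simp),
    ← lintegral_const_mul' _ _ (by simp), ← lintegral_add_right _ hm2, two_mul]
  nth_rw 1 [← lintegral_dens m]
  rw [← lintegral_dens m, ← lintegral_add_right_eq_self (fun y => ENNReal.ofReal (dens y)) u]
  nth_rw 1 [lintegral_add_right_eq_self (fun y => ENNReal.ofReal (dens y)) u]
  rw [← lintegral_add_right _ hm.ennreal_ofReal]
  refine lintegral_congr fun x => ?_
  have a := dens_nonneg x
  have b := dens_nonneg (x + u)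
  rw [← ENNReal.ofReal_add a b, ← ENNReal.ofReal_ofNat 2, ← ENNReal.ofReal_mul (by norm_num),
    ← ENNReal.ofReal_add (by positivity) (abs_nonneg _)]
  congr 1
  rcases le_total (dens x) (dens (x + u)) with h | h
  · rw [min_eq_left h, abs_of_nonneg (sub_nonneg.2 h)]; ring
  · rw [min_eq_right h, abs_of_nonpos (sub_nonpos.2 h)]; ring

lemma tot_body {m : ℕ} (v : Fin m → ℝ) (hv : ∑ k, v k ^ 2 ≤ 1) :
    24 * ((volume : Measure (Fin m → ℝ)).prod volume) (body m)
      ≤ tot ((volume : Measure (Fin m → ℝ)).prod volume) (body m) ((0.2257 : ℝ) • v, 0) := by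
  rw [measure_body]
  set M := ENNReal.ofReal ((π / 2) ^ m) with hM
  set μ := (volume : Measure (Fin m → ℝ)).prod (volume : Measure ℝ) with hμ
  have h1 : ∀ t ∈ Icc (-3 : ℝ) 3, ∀ s ∈ Icc (-3 : ℝ) 3,
      2 * M ≤ 2 * ov μ (body m) ((t - s) • (((0.2257 : ℝ) • v, 0) : (Fin m → ℝ) × ℝ))
        + M * ENNReal.ofReal (ph * prof (0.4514 * |t - s|)) := fun t ht s hs => by
    have hb : |t - s| ≤ 6 := abs_le.2 ⟨by linarith [ht.1, hs.2], by linarith [ht.2, hs.1]⟩
    have ha := abs_nonneg (t - s)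
    rw [Prod.smul_mk, smul_zero, hM, ov_body ((t - s) • (0.2257 : ℝ) • v),
      ← ENNReal.ofReal_mul (by positivity)]
    refine add_le_add_right ?_ _
    refine shift_bound _ (X := 0.4514 * |t - s|) (by positivity) (by linarith)
      (par_nonneg (by positivity) (by linarith)) (par_le _) ?_
    simp only [Pi.smul_apply, smul_eq_mul, mul_pow]
    rw [← Finset.mul_sum, ← Finset.mul_sum, div_pow, mul_pow, sq_abs]
    nlinarith [mul_le_mul_of_nonneg_left hv (sq_nonneg (t - s))]
  have hq : Measurable fun p : ℝ × ℝ => M * ENNReal.ofReal (ph * prof (0.4514 * |p.1 - p.2|)) := by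
    unfold prof par
    fun_prop
  have h2 : 72 * M ≤ 2 * tot μ (body m) ((0.2257 : ℝ) • v, 0) + 24 * M := by
    calc 72 * M = ∫⁻ _ in Icc (-3 : ℝ) 3, ∫⁻ _ in Icc (-3 : ℝ) 3, 2 * M := by
          simp only [lintegral_const, Measure.restrict_apply MeasurableSet.univ, univ_inter,
            vol_window]
          ring
      _ ≤ ∫⁻ t in Icc (-3 : ℝ) 3, ∫⁻ s in Icc (-3 : ℝ) 3,
          (2 * ov μ (body m) ((t - s) • (((0.2257 : ℝ) • v, 0) : (Fin m → ℝ) × ℝ))
            + M * ENNReal.ofReal (ph * prof (0.4514 * |t - s|))) :=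
          setLIntegral_mono' measurableSet_Icc fun t ht =>
            setLIntegral_mono' measurableSet_Icc fun s hs => h1 t ht s hs
      _ = 2 * tot μ (body m) ((0.2257 : ℝ) • v, 0) + M * ∫⁻ t in Icc (-3 : ℝ) 3,
          ∫⁻ s in Icc (-3 : ℝ) 3, ENNReal.ofReal (ph * prof (0.4514 * |t - s|)) := by
          have e : ∀ t : ℝ, ∫⁻ s in Icc (-3 : ℝ) 3,
              (2 * ov μ (body m) ((t - s) • (((0.2257 : ℝ) • v, 0) : (Fin m → ℝ) × ℝ))
                + M * ENNReal.ofReal (ph * prof (0.4514 * |t - s|)))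
              = 2 * (∫⁻ s in Icc (-3 : ℝ) 3,
                  ov μ (body m) ((t - s) • (((0.2257 : ℝ) • v, 0) : (Fin m → ℝ) × ℝ)))
                + ∫⁻ s in Icc (-3 : ℝ) 3, M * ENNReal.ofReal (ph * prof (0.4514 * |t - s|)) :=
            fun t => by
              have hq2 : Measurable fun s : ℝ =>
                  M * ENNReal.ofReal (ph * prof (0.4514 * |t - s|)) :=
                hq.comp (f := fun s : ℝ => (t, s)) (by fun_prop)
              rw [lintegral_add_right _ hq2, lintegral_const_mul' _ _ (by simp)]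
          simp_rw [e]
          rw [lintegral_add_right _ hq.lintegral_prod_right', lintegral_const_mul' _ _ (by simp),
            ← lintegral_const_mul' M _ (by simp [hM])]
          simp_rw [lintegral_const_mul' M _ (by simp [hM])]
          rfl
      _ ≤ _ := by
          rw [mul_comm 24 M]
          gcongr
          exact window_prof
  have h3 : 2 * (24 * M) + 24 * M ≤ 2 * tot μ (body m) ((0.2257 : ℝ) • v, 0) + 24 * M := by
    refine le_trans (le_of_eq ?_) h2
    ring
  have hfin : 24 * M ≠ ∞ := ENNReal.mul_ne_top (by simp) (by simp [hM])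
  exact (ENNReal.mul_le_mul_iff_right (by simp) (by simp)).1
    ((ENNReal.add_le_add_iff_right hfin).1 h3)

lemma bump_neg (x : ℝ) : bump (-x) = bump x := by simp [bump]

lemma body_subset (m : ℕ) :
    body m ⊆ Metric.closedBall (0 : Fin m → ℝ) (π / 2) ×ˢ Icc (0 : ℝ) 1 := by
  rintro ⟨x, h⟩ ⟨h0, h1⟩
  simp only at h0 h1
  have h2 : h < dens x := (ENNReal.ofReal_lt_ofReal_iff_of_nonneg h0).1 h1
  have h3 : dens x ≤ 1 := Finset.prod_le_one (fun _ _ => bump_nonneg _) fun _ _ => bump_le_one _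
  refine ⟨?_, h0, h2.le.trans h3⟩
  rw [mem_closedBall_zero_iff, pi_norm_le_iff_of_nonneg (by positivity)]
  intro i
  by_contra hc
  have : dens x = 0 := Finset.prod_eq_zero (Finset.mem_univ i)
    (by rw [bump, if_neg fun h => hc h.le])
  linarith

lemma integral_body_fst (m : ℕ) :
    ∫ p in body m, p.1 ∂((volume : Measure (Fin m → ℝ)).prod volume) = 0 := by
  have e1 : ∫ p in body m, p.1 ∂((volume : Measure (Fin m → ℝ)).prod volume)
      = ∫ x, x ∂((((volume : Measure (Fin m → ℝ)).prod volume).restrict (body m)).map Prod.fst) := by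
    rw [integral_map measurable_fst.aemeasurable (by fun_prop)]
  rw [e1, body, map_fst_hyp _ measurable_dens.ennreal_ofReal (by simp),
    integral_withDensity_eq_integral_toReal_smul measurable_dens.ennreal_ofReal
      (Eventually.of_forall fun x => by simp)]
  have h := integral_neg_eq_self (fun x : Fin m → ℝ => (ENNReal.ofReal (dens x)).toReal • x) volume
  have e : ∀ x : Fin m → ℝ, dens (-x) = dens x := fun x => by simp [dens, bump_neg]
  simp only [e, smul_neg, integral_neg] at h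
  exact self_eq_neg.1 h.symm

theorem komlos {m n : ℕ} (A : Matrix (Fin m) (Fin n) ℝ) (hA : ∀ j, ∑ i, A i j ^ 2 ≤ 1) :
    ∃ ε : Fin n → ℝ, (∀ j, ε j = 1 ∨ ε j = -1) ∧ ‖A.mulVec ε‖ ≤ 174 / 25 := by
  have hK : IsCompact (Metric.closedBall (0 : Fin m → ℝ) (π / 2) ×ˢ Icc (0 : ℝ) 1) :=
    (isCompact_closedBall _ _).prod isCompact_Icc
  obtain ⟨ε, hε, hm⟩ := balance n ((Fin m → ℝ) × ℝ) ((volume : Measure (Fin m → ℝ)).prod volume)
    _ (body m) hK ((convex_closedBall _ _).prod (convex_Icc _ _))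
    (measurableSet_hyp measurable_dens.ennreal_ofReal) (body_subset m)
    (by rw [measure_body]; simp only [ne_eq, ENNReal.ofReal_eq_zero, not_le]; positivity)
    (fun j => ((0.2257 : ℝ) • fun i => A i j, 0)) (fun j => tot_body _ (hA j))
  refine ⟨ε, hε, ?_⟩
  have hint : IntegrableOn (fun p : (Fin m → ℝ) × ℝ => p) (body m)
      ((volume : Measure (Fin m → ℝ)).prod volume) :=
    (continuous_id.continuousOn.integrableOn_compact hK).mono_set (body_subset m)
  have h1 := hm.1
  rw [mem_closedBall_zero_iff, Prod.fst_add, setAverage_eq, Prod.smul_fst, fst_integral hint,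
    integral_body_fst, smul_zero, zero_add, Prod.fst_sum] at h1
  have e : ∑ j, (ε j • ((((0.2257 : ℝ) • fun i => A i j), 0) : (Fin m → ℝ) × ℝ)).1
      = (0.2257 : ℝ) • A.mulVec ε := by
    funext i
    simp only [Prod.smul_mk, Finset.sum_apply, Pi.smul_apply, smul_eq_mul, Matrix.mulVec,
      dotProduct, Finset.mul_sum]
    exact Finset.sum_congr rfl fun j _ => by ring
  rw [e, norm_smul, Real.norm_of_nonneg (by norm_num)] at h1
  have := pi_lt_d4
  norm_num at h1 this ⊢
  linarith

end Pool.Agent.P.MP_7b0970_co
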