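import Pool.Agent.P.MP_7b0970_co.Gauss

/-! The tangent of an angle with squared cosine density is a scale mixture of Gaussians. -/

open MeasureTheory Set ProbabilityTheory Real
open scoped ENNReal NNReal

namespace Pool.Agent.P.MP_7b0970_co

/-- The squared cosine bump. -/
noncomputable def bump (x : ℝ) : ℝ := if |x| < π / 2 then cos x ^ 2 else 0

lemma bump_nonneg (x : ℝ) : 0 ≤ bump x := by
  unfold bump; split_ifs <;> positivity

lemma bump_le_one (x : ℝ) : bump x ≤ 1 := by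
  unfold bump; split_ifs
  · exact cos_sq_le_one x
  · exact zero_le_one

lemma measurable_bump : Measurable bump :=
  Measurable.ite (measurableSet_lt (by fun_prop) measurable_const) (by fun_prop) measurable_const

lemma measurable_tan : Measurable tan := by
  have : tan = fun x => sin x / cos x := funext tan_eq_sin_div_cos
  rw [this]; fun_prop

lemma mixA (G : ℝ → ℝ≥0∞) :
    ∫⁻ x, ENNReal.ofReal (bump x) * G (tan x) = ∫⁻ y, ENNReal.ofReal ((1 + y ^ 2)⁻¹ ^ 2) * G y := by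
  have h := lintegral_image_eq_lintegral_abs_deriv_mul (s := Ioo (-(π / 2)) (π / 2)) (f := tan)
    (f' := fun x => 1 / cos x ^ 2) measurableSet_Ioo
    (fun x hx => (hasDerivAt_tan (cos_pos_of_mem_Ioo hx).ne').hasDerivWithinAt)
    injOn_tan (fun y => ENNReal.ofReal ((1 + y ^ 2)⁻¹ ^ 2) * G y)
  rw [image_tan_Ioo, Measure.restrict_univ] at h
  rw [h, ← lintegral_indicator measurableSet_Ioo]
  refine lintegral_congr fun x => ?_
  by_cases hx : x ∈ Ioo (-(π / 2)) (π / 2)
  · have hc := cos_pos_of_mem_Ioo hx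
    rw [indicator_of_mem hx, bump, if_pos (abs_lt.2 hx), ← mul_assoc,
      ← ENNReal.ofReal_mul (abs_nonneg _), inv_one_add_tan_sq hc.ne', abs_of_pos (by positivity)]
    congr 2
    field_simp
  · rw [indicator_of_notMem hx, bump, if_neg (fun h => hx (abs_lt.1 h))]
    simp

lemma lintegral_scale {r : ℝ} (hr : r ≠ 0) (F : ℝ → ℝ≥0∞) (hF : Measurable F) :
    ∫⁻ g, F g = ENNReal.ofReal |r| * ∫⁻ y, F (r * y) := by
  have h := lintegral_map (μ := volume) (f := fun y => F (r * y)) (g := fun x => r⁻¹ * x)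
    (hF.comp (by fun_prop)) (by fun_prop)
  rw [Real.map_volume_mul_left (inv_ne_zero hr), lintegral_smul_measure, inv_inv] at h
  rw [← smul_eq_mul, h]
  simp [hr]

lemma lintegral_gauss (F : ℝ → ℝ≥0∞) (hF : Measurable F) :
    ∫⁻ g, F g ∂(gaussianReal 0 1)
      = ∫⁻ g, ENNReal.ofReal (ph * exp (-(1 / 2) * g ^ 2)) * F g := by
  rw [gaussianReal_of_var_ne_zero _ one_ne_zero,
    lintegral_withDensity_eq_lintegral_mul _ (measurable_gaussianPDF _ _) hF]
  simp only [Pi.mul_apply, gaussianPDF, pdf_eq]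

lemma mixB {r : ℝ} (hr : r ≠ 0) (G : ℝ → ℝ≥0∞) (hG : Measurable G) :
    ∫⁻ g, G (g / r) ∂(gaussianReal 0 1)
      = ∫⁻ y, ENNReal.ofReal (|r| * (ph * exp (-(1 / 2) * (r * y) ^ 2))) * G y := by
  rw [lintegral_gauss _ (by fun_prop), lintegral_scale hr _ (by fun_prop),
    ← lintegral_const_mul' _ _ (by simp)]
  refine lintegral_congr fun y => ?_
  rw [ENNReal.ofReal_mul (abs_nonneg r), mul_assoc, mul_div_cancel_left₀ _ hr]

lemma ph_sq : ph ^ 2 = (2 * π)⁻¹ := by
  rw [ph, inv_pow, sq_sqrt (by positivity)]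

lemma mixC (y : ℝ) :
    ∫⁻ r, ENNReal.ofReal (r ^ 2 * (|r| * (ph * exp (-(1 / 2) * (r * y) ^ 2)))) ∂(gaussianReal 0 1)
      = ENNReal.ofReal (2 / π * (1 + y ^ 2)⁻¹ ^ 2) := by
  have hb : 0 < (1 + y ^ 2) / 2 := by positivity
  set b := (1 + y ^ 2) / 2 with hbd
  rw [lintegral_gauss _ (by fun_prop)]
  have e : ∀ r : ℝ, ENNReal.ofReal (ph * exp (-(1 / 2) * r ^ 2)) *
      ENNReal.ofReal (r ^ 2 * (|r| * (ph * exp (-(1 / 2) * (r * y) ^ 2))))
      = ENNReal.ofReal (ph ^ 2 * (|r| ^ 3 * exp (-b * |r| ^ 2))) := fun r => by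
    rw [← ENNReal.ofReal_mul (mul_nonneg ph_pos.le (exp_pos _).le)]
    congr 1
    have : exp (-b * |r| ^ 2) = exp (-(1 / 2) * r ^ 2) * exp (-(1 / 2) * (r * y) ^ 2) := by
      rw [← exp_add, sq_abs, hbd]; congr 1; ring
    rw [this, pow_succ |r| 2, sq_abs]
    ring
  simp_rw [e]
  have h2 := integral_rpow_mul_exp_neg_mul_rpow (p := 2) (q := 3) (b := b) (by norm_num)
    (by norm_num) hb
  have e3 : ∀ x : ℝ, x ^ (3 : ℝ) = x ^ 3 := fun x => by exact_mod_cast rpow_natCast x 3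
  simp only [rpow_two, e3] at h2
  have e4 : b ^ (-((3 : ℝ) + 1) / 2) * (1 / 2) * Gamma ((3 + 1) / 2) = (b ^ 2)⁻¹ / 2 := by
    have : (-((3 : ℝ) + 1) / 2) = -2 := by norm_num
    rw [this, rpow_neg hb.le, rpow_two]
    norm_num
    ring
  rw [← ofReal_integral_eq_lintegral_ofReal]
  · rw [integral_const_mul, integral_comp_abs (f := fun x : ℝ => x ^ 3 * exp (-b * x ^ 2)), h2, e4,
      ph_sq, hbd]
    congr 1
    field_simp
  · refine Integrable.const_mul ?_ _
    have := (integrable_rpow_mul_exp_neg_mul_sq hb (s := 3) (by norm_num)).abs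
    refine this.congr (Filter.Eventually.of_forall fun x => ?_)
    simp only [e3, abs_mul, abs_pow, abs_exp, sq_abs]
  · exact Filter.Eventually.of_forall fun x => by have := ph_pos; positivity

lemma ae_ne_zero_gauss : ∀ᵐ r ∂(gaussianReal 0 1), r ≠ 0 := by
  have := nullSingletonClass_gaussianReal (μ := 0) (v := 1) one_ne_zero
  simp [ae_iff]

lemma mixK (G : ℝ → ℝ≥0∞) (hG : Measurable G) :
    ∫⁻ x, ENNReal.ofReal (bump x) * G (tan x) = ENNReal.ofReal (π / 2) *
      ∫⁻ r, ENNReal.ofReal (r ^ 2) * ∫⁻ g, G (g / r) ∂(gaussianReal 0 1) ∂(gaussianReal 0 1) := by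
  have e : ∫⁻ r, ENNReal.ofReal (r ^ 2) * ∫⁻ g, G (g / r) ∂(gaussianReal 0 1) ∂(gaussianReal 0 1)
      = ∫⁻ r, ∫⁻ y, ENNReal.ofReal (r ^ 2 * (|r| * (ph * exp (-(1 / 2) * (r * y) ^ 2)))) * G y
        ∂volume ∂(gaussianReal 0 1) := by
    refine lintegral_congr_ae (ae_ne_zero_gauss.mono fun r hr => ?_)
    simp only
    rw [mixB hr G hG, ← lintegral_const_mul' _ _ (by simp)]
    refine lintegral_congr fun y => ?_
    rw [ENNReal.ofReal_mul (sq_nonneg r), mul_assoc]
  have hm : Measurable fun p : ℝ × ℝ => ENNReal.ofReal (p.1 ^ 2 * (|p.1| * (ph *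
      exp (-(1 / 2) * (p.1 * p.2) ^ 2)))) * G p.2 := by fun_prop
  rw [e, lintegral_lintegral_swap hm.aemeasurable, mixA,
    ← lintegral_const_mul' _ _ (by simp)]
  refine lintegral_congr fun y => ?_
  rw [lintegral_mul_const _ (by fun_prop), mixC, ← mul_assoc, ← ENNReal.ofReal_mul (by positivity)]
  congr 2
  field_simp

lemma lintegral_two_gauss (F : ℝ → ℝ≥0∞) (hF : Measurable F) (v : ℝ≥0) (c : ℝ) :
    ∫⁻ z, ∫⁻ g, F (z + c * g) ∂(gaussianReal 0 1) ∂(gaussianReal 0 v)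
      = ∫⁻ z, F z ∂(gaussianReal 0 (v + .mk (c ^ 2) (sq_nonneg _))) := by
  have h := gaussianReal_conv_gaussianReal (m₁ := 0) (m₂ := 0) (v₁ := v)
    (v₂ := .mk (c ^ 2) (sq_nonneg _))
  rw [add_zero] at h
  have h2 := gaussianReal_map_const_mul (μ := 0) (v := 1) c
  rw [mul_zero, mul_one] at h2
  rw [← h, Measure.lintegral_conv hF, ← h2]
  refine lintegral_congr fun z => ?_
  rw [lintegral_map (by fun_prop) (by fun_prop)]

lemma mix_one (F : ℝ → ℝ≥0∞) (hF : Measurable F) {α β : ℝ} (hα : 0 ≤ α) (hβ : 0 ≤ β)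
    (h : ∀ v : ℝ≥0, ∫⁻ z, F z ∂(gaussianReal 0 v) ≤ ENNReal.ofReal (α + β * v)) (w : ℝ) (v : ℝ≥0) :
    ∫⁻ z, ∫⁻ x, ENNReal.ofReal (bump x) * F (z + w * tan x) ∂volume ∂(gaussianReal 0 v)
      ≤ ENNReal.ofReal (π / 2 * (α + β * w ^ 2) + π / 2 * β * v) := by
  have e : ∀ z : ℝ, ∫⁻ x, ENNReal.ofReal (bump x) * F (z + w * tan x) = ENNReal.ofReal (π / 2) *
      ∫⁻ r, ENNReal.ofReal (r ^ 2) * ∫⁻ g, F (z + w * (g / r)) ∂(gaussianReal 0 1)
        ∂(gaussianReal 0 1) := fun z =>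
    mixK (fun y => F (z + w * y)) (hF.comp (by fun_prop))
  simp_rw [e]
  have hm : Measurable fun p : ℝ × ℝ =>
      ∫⁻ g, F (p.1 + w * (g / p.2)) ∂(gaussianReal 0 1) :=
    Measurable.lintegral_prod_right'
      (f := fun q : (ℝ × ℝ) × ℝ => F (q.1.1 + w * (q.2 / q.1.2))) (hF.comp (by fun_prop))
  have hm2 : Measurable fun p : ℝ × ℝ => ENNReal.ofReal (p.2 ^ 2) *
      ∫⁻ g, F (p.1 + w * (g / p.2)) ∂(gaussianReal 0 1) :=
    Measurable.mul (f := fun p : ℝ × ℝ => ENNReal.ofReal (p.2 ^ 2)) (by fun_prop) hm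
  rw [lintegral_const_mul' _ _ (by simp), lintegral_lintegral_swap hm2.aemeasurable]
  have hv : 0 ≤ α + β * v := by positivity
  have h1 : ∀ r : ℝ, ∫⁻ z, ENNReal.ofReal (r ^ 2) * ∫⁻ g, F (z + w * (g / r)) ∂(gaussianReal 0 1)
      ∂(gaussianReal 0 v) ≤ ENNReal.ofReal ((α + β * v) * r ^ 2 + β * w ^ 2) := fun r => by
    rw [lintegral_const_mul' _ _ (by simp)]
    have e2 : ∀ z g : ℝ, z + w * (g / r) = z + (w / r) * g := fun z g => by ring
    simp_rw [e2]
    rw [lintegral_two_gauss F hF]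
    refine (mul_le_mul_right (h _) _).trans ?_
    rw [← ENNReal.ofReal_mul (sq_nonneg r)]
    refine ENNReal.ofReal_le_ofReal ?_
    simp only [NNReal.coe_add, NNReal.coe_mk]
    have : r ^ 2 * (w / r) ^ 2 ≤ w ^ 2 := by
      rcases eq_or_ne r 0 with rfl | hr
      · simp [sq_nonneg]
      · field_simp; rfl
    nlinarith [mul_le_mul_of_nonneg_left this hβ]
  refine (mul_le_mul_right (lintegral_mono h1) _).trans (le_of_eq ?_)
  have i1 : Integrable (fun r : ℝ => (α + β * v) * r ^ 2) (gaussianReal 0 1) :=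
    integrable_sq_gauss.const_mul _
  have i2 : Integrable (fun r : ℝ => (α + β * v) * r ^ 2 + β * w ^ 2) (gaussianReal 0 1) :=
    i1.add (integrable_const _)
  rw [← ofReal_integral_eq_lintegral_ofReal i2
    (Filter.Eventually.of_forall fun x => by positivity), integral_add i1 (integrable_const _),
    integral_const_mul, integral_sq_gauss, ← ENNReal.ofReal_mul (by positivity)]
  simp only [integral_const, probReal_univ, smul_eq_mul]
  congr 1
  ring

/-- The product bump. -/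
noncomputable def dens {m : ℕ} (y : Fin m → ℝ) : ℝ := ∏ i, bump (y i)

lemma dens_nonneg {m : ℕ} (y : Fin m → ℝ) : 0 ≤ dens y :=
  Finset.prod_nonneg fun _ _ => bump_nonneg _

lemma measurable_dens {m : ℕ} : Measurable (dens (m := m)) :=
  Finset.measurable_prod _ fun i _ => measurable_bump.comp (measurable_pi_apply i)

lemma measurable_score {m : ℕ} (w : Fin m → ℝ) :
    Measurable fun y : Fin m → ℝ => ∑ i, w i * tan (y i) :=
  Finset.measurable_sum _ fun i _ => (measurable_tan.comp (measurable_pi_apply i)).const_mul _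

lemma lintegral_succ {m : ℕ} (H : (Fin (m + 1) → ℝ) → ℝ≥0∞) (hH : Measurable H) :
    ∫⁻ y, H y = ∫⁻ y : Fin m → ℝ, ∫⁻ x : ℝ, H (Fin.cons x y) := by
  have h := (volume_preserving_piFinSuccAbove (fun _ : Fin (m + 1) => ℝ) 0).symm
  rw [← h.lintegral_comp hH, Measure.volume_eq_prod, lintegral_prod_symm]
  · simp [MeasurableEquiv.piFinSuccAbove_symm_apply, Fin.insertNthEquiv]
  · exact (hH.comp h.measurable).aemeasurable

theorem mix (m : ℕ) : ∀ (w : Fin m → ℝ) (F : ℝ → ℝ≥0∞) (α β : ℝ), Measurable F → 0 ≤ α → 0 ≤ β →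
    (∀ v : ℝ≥0, ∫⁻ z, F z ∂(gaussianReal 0 v) ≤ ENNReal.ofReal (α + β * v)) →
    ∫⁻ y : Fin m → ℝ, ENNReal.ofReal (dens y) * F (∑ i, w i * tan (y i))
      ≤ ENNReal.ofReal ((π / 2) ^ m * (α + β * ∑ i, w i ^ 2)) := by
  induction m with
  | zero =>
    intro w F α β hF hα hβ h
    have := h 0
    simp only [gaussianReal_zero_var, lintegral_dirac, NNReal.coe_zero, mul_zero, add_zero] at this
    simpa [dens, volume_pi] using this
  | succ m ih =>
    intro w F α β hF hα hβ h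
    rw [lintegral_succ (fun y => ENNReal.ofReal (dens y) * F (∑ i, w i * tan (y i)))
      (measurable_dens.ennreal_ofReal.mul (hF.comp (measurable_score w)))]
    have hG : Measurable fun z : ℝ => ∫⁻ x, ENNReal.ofReal (bump x) * F (z + w 0 * tan x) :=
      Measurable.lintegral_prod_right'
        (f := fun q : ℝ × ℝ => ENNReal.ofReal (bump q.2) * F (q.1 + w 0 * tan q.2))
        ((measurable_bump.comp measurable_snd).ennreal_ofReal.mul
          (hF.comp (measurable_fst.add ((measurable_tan.comp measurable_snd).const_mul _))))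
    have := ih (fun i => w i.succ) _ (π / 2 * (α + β * w 0 ^ 2)) (π / 2 * β) hG (by positivity)
      (by positivity) (mix_one F hF hα hβ h (w 0))
    refine le_trans (le_of_eq ?_) (this.trans (le_of_eq ?_))
    · refine lintegral_congr fun y => ?_
      rw [← lintegral_const_mul' _ _ (by simp)]
      refine lintegral_congr fun x => ?_
      simp only [dens, Fin.prod_univ_succ, Fin.sum_univ_succ, Fin.cons_zero, Fin.cons_succ]
      rw [ENNReal.ofReal_mul (bump_nonneg _), add_comm (w 0 * tan x)]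
      ring
    · rw [Fin.sum_univ_succ]
      congr 1
      ring

end Pool.Agent.P.MP_7b0970_co
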