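import Pool.Agent.P.MP_7b0970_co.Komlos

/-! The Gaussian vector with a rank one covariance matrix. -/

open MeasureTheory Set Real Filter ProbabilityTheory Matrix
open scoped ENNReal

namespace Pool.Agent.P.MP_7b0970_co

lemma psd_rank_one {n : ℕ} (σ : Fin n → ℝ) : (vecMulVec σ σ).PosSemidef := by
  simpa using posSemidef_vecMulVec_self_star σ

lemma gauss_rank_one {n : ℕ} (σ : Fin n → ℝ) :
    multivariateGaussian 0 (vecMulVec σ σ)
      = (gaussianReal 0 1).map fun t : ℝ => t • (WithLp.toLp 2 σ : EuclideanSpace ℝ (Fin n)) := by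
  have : IsProbabilityMeasure ((gaussianReal 0 1).map
      fun t : ℝ => t • (WithLp.toLp 2 σ : EuclideanSpace ℝ (Fin n))) :=
    Measure.isProbabilityMeasure_map (by fun_prop)
  refine Measure.ext_of_charFun (funext fun x => ?_)
  rw [charFun_multivariateGaussian (psd_rank_one σ), charFun_apply,
    integral_map (by fun_prop) (by fun_prop)]
  have h := charFun_gaussianReal (μ := 0) (v := 1) (σ ⬝ᵥ x.ofLp)
  rw [charFun_apply_real] at h
  have e : ∀ t : ℝ, inner ℝ (t • (WithLp.toLp 2 σ : EuclideanSpace ℝ (Fin n))) x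
      = (σ ⬝ᵥ x.ofLp) * t := fun t => by
    rw [real_inner_smul_left, mul_comm]
    simp [PiLp.inner_apply, dotProduct, mul_comm]
  have e2 : x.ofLp ⬝ᵥ vecMulVec σ σ *ᵥ x.ofLp = (σ ⬝ᵥ x.ofLp) ^ 2 := by
    rw [vecMulVec_mulVec]
    simp [dotProduct_comm, sq]
  simp_rw [e]
  push_cast at h ⊢
  rw [h, e2]
  simp

lemma two_ph : 2 * ph = √(2 / π) := by
  have hp := ph_pos
  rw [eq_comm, sqrt_eq_iff_eq_sq (by positivity) (by positivity), mul_pow, ph_sq]
  field_simp

lemma mean_rank_one {m n : ℕ} (A : Matrix (Fin m) (Fin n) ℝ) (σ : Fin n → ℝ) :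
    ∫⁻ g, ‖A.mulVec (WithLp.ofLp g)‖ₑ ∂(multivariateGaussian 0 (vecMulVec σ σ))
      = ENNReal.ofReal (‖A.mulVec σ‖ * √(2 / π)) := by
  have hc : Continuous fun g : EuclideanSpace ℝ (Fin n) => A.mulVec (WithLp.ofLp g) := by
    fun_prop
  rw [gauss_rank_one, lintegral_map hc.measurable.enorm (by fun_prop), ← two_ph,
    ← integral_abs_gauss, ← integral_const_mul,
    ofReal_integral_eq_lintegral_ofReal (integrable_abs_gauss.const_mul _)
      (Eventually.of_forall fun x => by positivity)]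
  refine lintegral_congr fun t => ?_
  rw [← ofReal_norm, WithLp.ofLp_smul, mulVec_smul, norm_smul, mul_comm]
  rfl

end Pool.Agent.P.MP_7b0970_co
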