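import Pool.Agent.P.MP_7b0970_co.Hyp

/-! The window operator: chord lengths of a set in a direction, inside the window from -3 to 3. -/

open MeasureTheory Set
open scoped ENNReal

namespace Pool.Agent.P.MP_7b0970_co

variable {V : Type*} [NormedAddCommGroup V] [NormedSpace ℝ V] [FiniteDimensional ℝ V]
  [MeasurableSpace V] [BorelSpace V]

/-- Length of the set of `t` in the window with `x + t v` in `E`. -/
noncomputable def len (E : Set V) (v : V) (x : V) : ℝ≥0∞ :=
  ∫⁻ t in Icc (-3 : ℝ) 3, E.indicator 1 (x + t • v)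

/-- Overlap of `E` with a translate. -/
noncomputable def ov (μ : Measure V) (E : Set V) (u : V) : ℝ≥0∞ := μ {x | x ∈ E ∧ x + u ∈ E}

/-- Total overlap over the window. -/
noncomputable def tot (μ : Measure V) (E : Set V) (v : V) : ℝ≥0∞ :=
  ∫⁻ t in Icc (-3 : ℝ) 3, ∫⁻ s in Icc (-3 : ℝ) 3, ov μ E ((t - s) • v)

lemma vol_window : volume (Icc (-3 : ℝ) 3) = 6 := by
  rw [Real.volume_Icc]; norm_num

lemma meas_ind {E : Set V} (hE : MeasurableSet E) (v : V) :
    Measurable fun p : V × ℝ => (E.indicator 1 (p.1 + p.2 • v) : ℝ≥0∞) :=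
  (measurable_one.indicator hE).comp (by fun_prop)

lemma measurable_len {E : Set V} (hE : MeasurableSet E) (v : V) : Measurable (len E v) :=
  (meas_ind hE v).lintegral_prod_right'

omit [FiniteDimensional ℝ V] [MeasurableSpace V] [BorelSpace V] in
lemma len_le (E : Set V) (v x : V) : len E v x ≤ 6 := by
  calc len E v x ≤ ∫⁻ _ in Icc (-3 : ℝ) 3, 1 :=
        lintegral_mono fun t => indicator_le_self' (fun _ _ => zero_le) _
    _ = 6 := by simp only [lintegral_const, Measure.restrict_apply MeasurableSet.univ, univ_inter,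
        one_mul, vol_window]

omit [FiniteDimensional ℝ V] [MeasurableSpace V] [BorelSpace V] in
lemma len_ne_top (E : Set V) (v x : V) : len E v x ≠ ∞ :=
  ne_top_of_le_ne_top (by norm_num) (len_le E v x)

omit [FiniteDimensional ℝ V] [MeasurableSpace V] [BorelSpace V] in
lemma len_mono {E E' : Set V} (v x y : V) (h : ∀ t : ℝ, x + t • v ∈ E → y + t • v ∈ E') :
    len E v x ≤ len E' v y := by
  refine lintegral_mono fun t => ?_
  by_cases ht : x + t • v ∈ E
  · simp [indicator_of_mem ht, indicator_of_mem (h t ht)]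
  · simp [indicator_of_notMem ht]

lemma lintegral_mul_len (μ : Measure V) [μ.IsAddHaarMeasure] {E : Set V} (hE : MeasurableSet E)
    (v : V) (F : V → ℝ≥0∞) (hF : Measurable F) :
    ∫⁻ x, F x * len E v x ∂μ
      = ∫⁻ p, F (p.1 - p.2 • v) ∂((μ.restrict E).prod (volume.restrict (Icc (-3 : ℝ) 3))) := by
  have h1 : ∀ x, F x * len E v x
      = ∫⁻ t in Icc (-3 : ℝ) 3, F x * E.indicator 1 (x + t • v) := fun x => by
    rw [len, lintegral_const_mul]
    exact (measurable_one.indicator hE).comp (by fun_prop)
  simp_rw [h1]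
  rw [lintegral_lintegral_swap (((hF.comp measurable_fst).mul (meas_ind hE v)).aemeasurable),
    lintegral_prod_symm (fun p : V × ℝ => F (p.1 - p.2 • v))
      (hF.comp (by fun_prop)).aemeasurable]
  refine lintegral_congr fun t => ?_
  rw [← lintegral_indicator hE, ← lintegral_add_right_eq_self _ (-(t • v))]
  refine lintegral_congr fun x => ?_
  by_cases hx : x ∈ E
  · simp [hx, sub_eq_add_neg]
  · simp [hx]

lemma lintegral_len (μ : Measure V) [μ.IsAddHaarMeasure] {E : Set V} (hE : MeasurableSet E)
    (v : V) : ∫⁻ x, len E v x ∂μ = 6 * μ E := by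
  have := lintegral_mul_len μ hE v (fun _ => 1) measurable_const
  simp only [one_mul, lintegral_const] at this
  rw [this, ← univ_prod_univ, Measure.prod_prod, Measure.restrict_apply MeasurableSet.univ,
    Measure.restrict_apply MeasurableSet.univ, univ_inter, univ_inter, vol_window, mul_comm]

lemma measure_step (μ : Measure V) [μ.IsAddHaarMeasure] {E : Set V} (hE : MeasurableSet E)
    (v : V) : (μ.prod volume) (hyp (len E v)) = 6 * μ E := by
  rw [measure_hyp μ (measurable_len hE v) (len_ne_top E v), lintegral_len μ hE]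

omit [NormedSpace ℝ V] [FiniteDimensional ℝ V] in
lemma measurableSet_ov {E : Set V} (hE : MeasurableSet E) (u : V) :
    MeasurableSet {x | x ∈ E ∧ x + u ∈ E} :=
  hE.inter (hE.preimage (measurable_add_const u))

lemma ov_step (μ : Measure V) [μ.IsAddHaarMeasure] {E : Set V} (hE : MeasurableSet E)
    (v u : V) : 6 * ov μ E u ≤ ov (μ.prod volume) (hyp (len E v)) (u, 0) := by
  rw [ov, ← measure_step μ (measurableSet_ov hE u) v]
  refine measure_mono fun p hp => ?_
  obtain ⟨h0, h1⟩ := hp
  refine ⟨⟨h0, h1.trans_le (len_mono v _ _ fun t ht => ht.1)⟩, ?_, ?_⟩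
  · simpa using h0
  · simp only [Prod.snd_add, add_zero, Prod.fst_add]
    refine h1.trans_le (len_mono v _ _ fun t ht => ?_)
    have := ht.2
    rwa [add_right_comm] at this

lemma tot_step (μ : Measure V) [μ.IsAddHaarMeasure] {E : Set V} (hE : MeasurableSet E)
    (v u : V) : 6 * tot μ E u ≤ tot (μ.prod volume) (hyp (len E v)) (u, 0) := by
  rw [tot, tot, ← lintegral_const_mul' _ _ (by norm_num)]
  refine lintegral_mono fun t => ?_
  rw [← lintegral_const_mul' _ _ (by norm_num)]
  refine lintegral_mono fun s => ?_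
  have := ov_step μ hE v ((t - s) • u)
  simpa using this

lemma lintegral_len_sq (μ : Measure V) [μ.IsAddHaarMeasure] {E : Set V} (hE : MeasurableSet E)
    (v : V) : ∫⁻ x, len E v x ^ 2 ∂μ = tot μ E v := by
  have hm : ∀ t : ℝ, Measurable fun x : V => (E.indicator 1 (x + t • v) : ℝ≥0∞) := fun t =>
    (measurable_one.indicator hE).comp (by fun_prop)
  have h1 : ∀ x, len E v x ^ 2
      = ∫⁻ t in Icc (-3 : ℝ) 3, E.indicator 1 (x + t • v) * len E v x := fun x => by
    rw [lintegral_mul_const, sq]
    · rfl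
    · exact (measurable_one.indicator hE).comp (by fun_prop)
  simp_rw [h1]
  rw [lintegral_lintegral_swap
    (((meas_ind hE v).mul ((measurable_len hE v).comp measurable_fst)).aemeasurable)]
  refine lintegral_congr fun t => ?_
  rw [lintegral_mul_len μ hE v _ (hm t),
    lintegral_prod_symm (fun p : V × ℝ => (E.indicator 1 (p.1 - p.2 • v + t • v) : ℝ≥0∞))
      ((hm t).comp (f := fun p : V × ℝ => p.1 - p.2 • v) (by fun_prop)).aemeasurable]
  refine lintegral_congr fun s => ?_
  rw [ov, ← lintegral_indicator hE, ← lintegral_indicator_one (measurableSet_ov hE _)]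
  refine lintegral_congr fun x => ?_
  have e : x - s • v + t • v = x + (t - s) • v := by rw [sub_smul]; abel
  by_cases hx : x ∈ E
  · by_cases hy : x + (t - s) • v ∈ E
    · simp [hx, hy, e]
    · simp [hx, hy, e]
  · simp [hx]

end Pool.Agent.P.MP_7b0970_co
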